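import Pool.Agent.H47.SP.Defs

/-!
# Module CLS: three kinds of leading forms

PROOF. Let `e = g.natDegree ≤ n`, `g' = g.map (Int.castRingHom ℚ)` (same degree, `Polynomial.natDegree_map_eq_of_injective`). If `e = 0`: first case. If `0 < e < n`: `Split` with `k = n - e`, `l = e`, `A = 1`, `B = g'` (`isCoprime_one_left`). If `e = n`: `g'` is not zero and not a unit (degree `n ≥ 1`); take an irreducible `P ∣ g'` (`WfDvdMonoid.exists_irreducible_factor`) and `g' = P ^ j * R` with `¬ P ∣ R`, `1 ≤ j`
(`(FiniteMultiplicity.of_not_isUnit ..).exists_eq_pow_mul_and_not_dvd`, or strong induction on the degree). `IsCoprime (P ^ j) R` (`(hP.coprime_iff_not_dvd).2`, `IsCoprime.pow_left`). If `R.natDegree > 0`: `Split` with `A = P ^ j`, `k = natDegree A ≥ 1` (`P` irreducible over a field has positive degree), `B = R`, `l = natDegree R`, `k + l = n` (`natDegree_mul`). If `R.natDegree = 0`: `R = C r`, `r ≠ 0`. If `j = 1`: `g' = P * C r` is irreducible (associated to `P`).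
If `2 ≤ j`: let `p : ℤ[X]` be primitive with `p.map = C s * P`, `s ≠ 0` (multiply `P` by a common denominator: `IsLocalization.integerNormalization` or `Polynomial.exists_..`, then `primPart`; see the proof of `exists_factor` in H72/ES/RedCount.lean or H8/NoPt/RedC.lean for such arguments). `p ^ j` is primitive (`IsPrimitive.mul`, induction) and divides `g` over `ℚ`, so over `ℤ` (`Polynomial.IsPrimitive.Int.dvd_iff_map_cast_dvd_map_cast`, applied to `p ^ j` and the primitive part of `g`, or
`IsPrimitive.dvd_of_fraction_map_dvd_fraction_map`): `g = p ^ j * q`, degrees: `q = C a`. `Pow g`.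
-/

set_option autoImplicit false

namespace Pool.Agent.H47.SP

open Finset Polynomial

theorem cls {n : ℕ} (hn : 1 ≤ n) (g : ℤ[X]) (hd : g.natDegree ≤ n) :
    g.natDegree = 0 ∨ Split n g ∨
      (g.natDegree = n ∧ (Irreducible (g.map (Int.castRingHom ℚ)) ∨ Pow g)) := by
  have hinj : Function.Injective (Int.castRingHom ℚ) := RingHom.injective_int _
  rcases Nat.eq_zero_or_pos g.natDegree with h0 | h0
  · exact Or.inl h0
  right
  rcases lt_or_eq_of_le hd with h1 | h1
  · left
    exact ⟨n - g.natDegree, g.natDegree, 1, g.map (Int.castRingHom ℚ), by omega, h0, by omega,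
      by rw [natDegree_one]; omega, natDegree_map_eq_of_injective hinj g, isCoprime_one_left,
      (one_mul _).symm⟩
  have hg : g ≠ 0 := by
    intro h
    rw [h, natDegree_zero] at h0
    omega
  obtain ⟨c, hc⟩ : ∃ c, c = g.content := ⟨_, rfl⟩
  obtain ⟨q, hq⟩ : ∃ q, q = g.primPart := ⟨_, rfl⟩
  have hgq : g = C c * q := by
    rw [hc, hq]
    exact g.eq_C_content_mul_primPart
  have hc0 : c ≠ 0 := by
    intro h
    rw [h, C_0, zero_mul] at hgq
    exact hg hgq
  have hqp : q.IsPrimitive := by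
    rw [hq]
    exact g.isPrimitive_primPart
  have hqd : q.natDegree = n := by
    rw [hq, natDegree_primPart, h1]
  have hq0 : q ≠ 0 := hqp.ne_zero
  have hqu : ¬ IsUnit q := by
    intro h
    have := natDegree_eq_zero_of_isUnit h
    omega
  obtain ⟨p, hp, hpq⟩ := WfDvdMonoid.exists_irreducible_factor hqu hq0
  obtain ⟨R, hR, hpR⟩ := (FiniteMultiplicity.of_not_isUnit hp.not_isUnit
    hq0).exists_eq_pow_mul_and_not_dvd
  obtain ⟨j, hj⟩ : ∃ j, j = multiplicity p q := ⟨_, rfl⟩
  rw [← hj] at hR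
  have hj1 : 1 ≤ j := by
    by_contra h
    have h2 : j = 0 := by omega
    rw [h2, pow_zero, one_mul] at hR
    exact hpR (hR ▸ hpq)
  have hpp : p.IsPrimitive := isPrimitive_of_dvd hqp hpq
  have hRp : R.IsPrimitive := isPrimitive_of_dvd hqp ⟨p ^ j, by rw [hR]; ring⟩
  have hpirr : Irreducible (p.map (Int.castRingHom ℚ)) :=
    (IsPrimitive.Int.irreducible_iff_irreducible_map_cast hpp).1 hp
  have hcop : IsCoprime (p.map (Int.castRingHom ℚ) ^ j) (R.map (Int.castRingHom ℚ)) := by
    refine IsCoprime.pow_left ?_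
    rw [hpirr.coprime_iff_not_dvd]
    intro h
    exact hpR ((IsPrimitive.Int.dvd_iff_map_cast_dvd_map_cast p R hpp).2 h)
  have hpd : 0 < (p.map (Int.castRingHom ℚ)).natDegree := hpirr.natDegree_pos
  have hc0' : (c : ℚ) ≠ 0 := by exact_mod_cast hc0
  have hcu : IsUnit (C (c : ℚ)) := isUnit_C.2 (isUnit_iff_ne_zero.2 hc0')
  have hmap : g.map (Int.castRingHom ℚ) =
      C (c : ℚ) * p.map (Int.castRingHom ℚ) ^ j * R.map (Int.castRingHom ℚ) := by
    rw [hgq, hR, Polynomial.map_mul, Polynomial.map_mul, Polynomial.map_pow, map_C, mul_assoc]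
    rfl
  rcases Nat.eq_zero_or_pos R.natDegree with h2 | h2
  · right
    refine ⟨h1, ?_⟩
    obtain ⟨u, hu⟩ : ∃ u, R = C u := ⟨_, eq_C_of_natDegree_eq_zero h2⟩
    rcases Nat.lt_or_ge 1 j with h3 | h3
    · right
      refine ⟨c * u, p, j, h3, ?_⟩
      rw [hgq, hR, hu, C_mul]
      ring
    · left
      have h4 : j = 1 := by omega
      have hu0 : u ≠ 0 := by
        intro h
        rw [h, C_0] at hu
        exact hRp.ne_zero hu
      rw [hmap, h4, pow_one, hu, map_C]
      have h5 : IsUnit (C (c : ℚ) * C ((Int.castRingHom ℚ) u)) := by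
        refine hcu.mul (isUnit_C.2 (isUnit_iff_ne_zero.2 ?_))
        rw [eq_intCast]
        exact_mod_cast hu0
      have h6 : C (c : ℚ) * p.map (Int.castRingHom ℚ) * C ((Int.castRingHom ℚ) u) =
          p.map (Int.castRingHom ℚ) * (C (c : ℚ) * C ((Int.castRingHom ℚ) u)) := by ring
      rw [h6]
      exact (associated_mul_unit_right _ _ h5).irreducible hpirr
  · left
    have hRd : (R.map (Int.castRingHom ℚ)).natDegree = R.natDegree :=
      natDegree_map_eq_of_injective hinj R
    have hA0 : C (c : ℚ) * p.map (Int.castRingHom ℚ) ^ j ≠ 0 :=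
      mul_ne_zero hcu.ne_zero (pow_ne_zero _ hpirr.ne_zero)
    have hAd : (C (c : ℚ) * p.map (Int.castRingHom ℚ) ^ j).natDegree =
        j * (p.map (Int.castRingHom ℚ)).natDegree := by
      rw [natDegree_C_mul hc0', natDegree_pow]
    have hR0 : R.map (Int.castRingHom ℚ) ≠ 0 := by
      intro h
      rw [h, natDegree_zero] at hRd
      omega
    have hsum : (C (c : ℚ) * p.map (Int.castRingHom ℚ) ^ j).natDegree + R.natDegree = n := by
      rw [← hRd, ← natDegree_mul hA0 hR0, ← hmap, natDegree_map_eq_of_injective hinj, h1]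
    refine ⟨_, R.natDegree, C (c : ℚ) * p.map (Int.castRingHom ℚ) ^ j, R.map (Int.castRingHom ℚ),
      ?_, h2, hsum, le_rfl, hRd, ?_, hmap⟩
    · rw [hAd]
      exact Nat.mul_pos hj1 hpd
    · exact (isCoprime_mul_unit_left_left hcu _ _).2 hcop

end Pool.Agent.H47.SP
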