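import Pool.Agent.H47.SP.RNB

/-!
# Module RNC: Runge's theorem for the leading forms of the kind `Split`

PROOF (model: `runge_of`, H15/SC/Rrun.lean). `K` from `Pool.Agent.H97.RU.runge n`. `Split n (ld n F)`: `k l A B`. `B ≠ 0` (`0 < l = natDegree`), `A ≠ 0` (otherwise `B` is a unit, `isCoprime_zero_left`), so `ld n F ≠ 0`: some coefficient `arrM F (n - j) j ≠ 0` (`ld_coeff`), so `F.totalDegree = n = k + l` (`MvPolynomial.le_totalDegree` and `hF.deg`; `ex_deg`). `homogeneousComponent (k + l) (map F) = fm ℚ (k + l) ((ld n F).map ..).coeff`: compare coefficients at `m` (`MvPolynomial.coeff_homogeneousComponent`, `MvPolynomial.coeff_map`,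
`ex_deg`, `ex_eta`; `top_fm` in Rrun is the same for `mvPoly`; `expo = ex` by definition), then `= fm ℚ k A.coeff * fm ℚ l B.coeff` (`fm_mul`). `fm_hom`, `fm_rel`. Conclusion `|x| ≤ H ^ K`, `|y| ≤ H ^ K`: `max_le`.
-/

set_option autoImplicit false

namespace Pool.Agent.H47.SP

open Finset Polynomial Pool.Agent.H15.SC Pool.Agent.H72.ES

private theorem top_ld {n : ℕ} (F : MP) :
    MvPolynomial.homogeneousComponent n (MvPolynomial.map (Int.castRingHom ℚ) F) =
      fm ℚ n ((ld n F).map (Int.castRingHom ℚ)).coeff := by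
  classical
  ext m
  rw [MvPolynomial.coeff_homogeneousComponent, MvPolynomial.coeff_map]
  unfold fm
  rw [MvPolynomial.coeff_sum]
  simp only [MvPolynomial.coeff_monomial]
  have hdeg : m.degree = m 0 + m 1 := ex_deg m
  have hex : ∀ i j, Pool.Agent.H8.NoPt.expo i j = ex i j := fun i j => rfl
  by_cases h : m.degree = n
  · rw [if_pos h]
    have h1 : m 0 + m 1 = n := by rw [← hdeg, h]
    have e1 : ex (n - m 1) (m 1) = m := by
      have : n - m 1 = m 0 := by omega
      rw [this, ex_eta]
    rw [sum_eq_single (m 1)]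
    · rw [hex, if_pos e1, Polynomial.coeff_map, ld_coeff F (m 1) (by omega)]
      show _ = (Int.castRingHom ℚ) (F.coeff (ex (n - m 1) (m 1)))
      rw [e1]
    · intro j _ hj
      refine if_neg fun h2 => hj ?_
      rw [← e1] at h2
      exact (Pool.Agent.H8.NoPt.mv_expo_inj h2).2
    · intro h2
      exact absurd (mem_range.2 (by omega)) h2
  · rw [if_neg h]
    symm
    refine sum_eq_zero fun j hj => if_neg fun h2 => h ?_
    have h1 := mem_range.1 hj
    rw [hdeg, ← h2, Pool.Agent.H8.NoPt.mv_expo_zero, Pool.Agent.H8.NoPt.mv_expo_one]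
    omega

theorem run_split (n : ℕ) : ∃ K : ℕ, ∀ (H : ℕ) (F : MP), 2 ≤ H → InBox n H F → IrrQ F →
    Split n (ld n F) → ∀ x y : ℤ, MvPolynomial.eval ![x, y] F = 0 →
      max |x| |y| ≤ (H : ℤ) ^ K := by
  obtain ⟨K, hK⟩ := Pool.Agent.H97.RU.runge n
  refine ⟨K, fun H F hH hF hI hS x y hxy => ?_⟩
  obtain ⟨k, l, A, B, hk, hl, hkl, hA, hB, hcop, hprod⟩ := hS
  have hB0 : B ≠ 0 := by
    rintro rfl
    rw [natDegree_zero] at hB
    omega
  have hA0 : A ≠ 0 := by
    rintro rfl
    rw [isCoprime_zero_left] at hcop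
    have := natDegree_eq_zero_of_isUnit hcop
    omega
  have hld : ld n F ≠ 0 := by
    intro h0
    rw [h0, Polynomial.map_zero] at hprod
    exact mul_ne_zero hA0 hB0 hprod.symm
  have htd : F.totalDegree = k + l := by
    refine le_antisymm (by rw [hkl]; exact hF.deg) ?_
    obtain ⟨j, hj⟩ : ∃ j, (ld n F).coeff j ≠ 0 := by
      by_contra hcon
      push Not at hcon
      exact hld (Polynomial.ext fun j => by rw [hcon, coeff_zero])
    have hjn : j ≤ n := by
      by_contra hcon
      exact hj (ld_coeff_big F j (by omega))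
    rw [ld_coeff F j hjn] at hj
    have h3 := MvPolynomial.le_totalDegree (MvPolynomial.mem_support_iff.2 hj)
    have h4 : ((ex (n - j) j).sum fun _ e => e) = (n - j) + j := by
      have h5 := ex_deg (ex (n - j) j)
      rw [ex_zero, ex_one] at h5
      rw [← h5]
      rfl
    rw [h4] at h3
    omega
  have htop : MvPolynomial.homogeneousComponent (k + l)
      (MvPolynomial.map (Int.castRingHom ℚ) F) = fm ℚ k A.coeff * fm ℚ l B.coeff := by
    rw [← fm_mul hA hB.le, ← hprod, hkl]
    exact top_ld F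
  obtain ⟨h1, h2⟩ := hK H F hH hF.deg hF.bd hI k l _ _ (fm_hom k _) (fm_hom l _) hk hl
    (fm_rel hA hB hB0 hcop) htop htd x y hxy
  exact max_le h1 h2

end Pool.Agent.H47.SP
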