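import Pool.Agent.H72.ES.Total
import Pool.Agent.H72.ES.DensB
import Pool.Agent.H15.SC.Rrun

/-!
# Polynomial bound outside an exceptional set of large codimension: definitions

`MP = ℤ[x,y]`, `InBox n H F`: total degree at most `n`, coefficients in `[-H, H]`. `ld n F`: the part
of degree `n`, dehomogenised (coefficient `j` belongs to `x^(n-j) y^j`). Conventions of `H72/ES`
(`arrM`, `Mon n`, `arr`, `part`, `flexP`, `leadQ`); `fm` is in `H15/SC/Rrun`.
-/

set_option autoImplicit false

namespace Pool.Agent.H47.SP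

open Finset Polynomial Pool.Agent.H72.ES

/-- polynomials in two variables -/
abbrev MP : Type := MvPolynomial (Fin 2) ℤ

/-- number of the monomials of degree at most `n` -/
def NN (n : ℕ) : ℕ := (n + 1) * (n + 2) / 2

/-- total degree at most `n`, coefficients in `[-H, H]` -/
structure InBox (n H : ℕ) (F : MP) : Prop where
  deg : F.totalDegree ≤ n
  bd : ∀ m, |F.coeff m| ≤ (H : ℤ)

/-- the part of degree `n`, dehomogenised -/
noncomputable def ld (n : ℕ) (F : MP) : ℤ[X] := lead n (arrM F)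

/-- an integer zero larger than `H ^ E` -/
def Big (H E : ℕ) (F : MP) : Prop :=
  ∃ x y : ℤ, (H : ℤ) ^ E < max |x| |y| ∧ MvPolynomial.eval ![x, y] F = 0

/-- irreducible over `ℚ` -/
def IrrQ (F : MP) : Prop := Irreducible (MvPolynomial.map (Int.castRingHom ℚ) F)

/-- the form of degree `n` with dehomogenisation `g` is a product of two coprime forms of positive
degrees `k`, `l` over `ℚ` -/
def Split (n : ℕ) (g : ℤ[X]) : Prop :=
  ∃ (k l : ℕ) (A B : ℚ[X]), 0 < k ∧ 0 < l ∧ k + l = n ∧ A.natDegree ≤ k ∧ B.natDegree = l ∧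
    IsCoprime A B ∧ g.map (Int.castRingHom ℚ) = A * B

/-- a constant times a proper power -/
def Pow (g : ℤ[X]) : Prop := ∃ (a : ℤ) (p : ℤ[X]) (j : ℕ), 2 ≤ j ∧ g = C a * p ^ j

/-- the vector of the coefficients, `Mon n` of `H72/ES/Dens` -/
noncomputable def vec (n : ℕ) (F : MP) : Mon n → ℤ :=
  fun m => arrM F ((m.1 : ℕ) - (m.2 : ℕ)) (m.2 : ℕ)

theorem arr_vec {n : ℕ} {F : MP} (hF : F.totalDegree ≤ n) : arr (vec n F) = arrM F := by
  funext i j
  by_cases h : i + j ≤ n
  · rw [arr_eq _ i j h]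
    unfold vec mo
    simp
  · rw [arr_supp _ i j (by omega), arrM_supp hF i j (by omega)]

theorem vec_inj {n : ℕ} {F G : MP} (hF : F.totalDegree ≤ n) (hG : G.totalDegree ≤ n)
    (h : vec n F = vec n G) : F = G := by
  apply arrM_inj
  rw [← arr_vec hF, ← arr_vec hG, h]

theorem vec_inj_on {n H : ℕ} (S : Finset MP) (hS : ∀ F ∈ S, InBox n H F) :
    Set.InjOn (vec n) (S : Set MP) := fun F hF G hG h =>
  vec_inj (hS F hF).deg (hS G hG).deg h

theorem vec_bd {n H : ℕ} {F : MP} (hF : InBox n H F) (m : Mon n) : |vec n F m| ≤ (H : ℤ) :=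
  hF.bd _

theorem vec_box {n H : ℕ} {F : MP} (hF : InBox n H F) : vec n F ∈ box n H :=
  mem_box.2 fun m => vec_bd hF m

theorem card_mon (n : ℕ) : Fintype.card (Mon n) = NN n := by
  have h1 : Fintype.card (Mon n) = ∑ d ∈ range (n + 1), (d + 1) := by
    rw [Fintype.card_sigma, Finset.sum_range]
    simp
  have h2 : (∑ d ∈ range (n + 1), (d + 1)) * 2 = (n + 1) * (n + 2) := by
    induction n with
    | zero => rfl
    | succ n ih =>
      rw [sum_range_succ, add_mul, ih (by
        rw [Fintype.card_sigma, Finset.sum_range]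
        simp)]
      ring
  rw [h1, NN, ← h2, Nat.mul_div_cancel _ (by norm_num)]

theorem ld_coeff {n : ℕ} (F : MP) (j : ℕ) (hj : j ≤ n) : (ld n F).coeff j = arrM F (n - j) j := by
  unfold ld lead
  rw [finsetSum_coeff]
  simp only [coeff_C_mul, coeff_X_pow, mul_ite, mul_one, mul_zero]
  rw [Finset.sum_ite_eq]
  rw [if_pos (mem_range.2 (by omega))]

theorem ld_coeff_big {n : ℕ} (F : MP) (j : ℕ) (hj : n < j) : (ld n F).coeff j = 0 := by
  unfold ld lead
  rw [finsetSum_coeff]
  simp only [coeff_C_mul, coeff_X_pow, mul_ite, mul_one, mul_zero]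
  rw [Finset.sum_ite_eq]
  rw [if_neg]
  rw [mem_range]
  omega

theorem ld_deg {n : ℕ} (F : MP) : (ld n F).natDegree ≤ n :=
  natDegree_le_iff_coeff_eq_zero.2 fun j hj => ld_coeff_big F j hj

theorem ld_part (n : ℕ) (F : MP) : part n 0 (arrM F) = ld n F := part_zero n _

theorem ld_leadQ (n : ℕ) (F : MP) : leadQ n (arrM F) = (ld n F).map (Int.castRingHom ℚ) := by
  unfold ld lead leadQ
  rw [Polynomial.map_sum]
  refine sum_congr rfl fun j _ => ?_
  simp

theorem ld_bd {n H : ℕ} {F : MP} (hF : InBox n H F) (j : ℕ) : |(ld n F).coeff j| ≤ (H : ℤ) := by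
  by_cases hj : j ≤ n
  · rw [ld_coeff F j hj]
    exact hF.bd _
  · rw [ld_coeff_big F j (by omega), abs_zero]
    exact Int.natCast_nonneg H

end Pool.Agent.H47.SP
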