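import Pool.Agent.H47.SP.RNA

/-!
# Module RNB: coprime forms

PROOF. `u * A + v * B = 1` (`hc`). Put `N = k + l + u.natDegree + v.natDegree`. `fm ℚ N` is additive in the coefficients, so by `fm_mul` `fm ℚ N (1 : ℚ[X]).coeff = fm ℚ (N - k) u.coeff * fm ℚ k A.coeff + fm ℚ (N - l) v.coeff * fm ℚ l B.coeff` (degrees: `u.natDegree ≤ N - k`, `v.natDegree ≤ N - l`) and `fm ℚ N (1 : ℚ[X]).coeff = X 0 ^ N` (only `j = 0`; `expo N 0`). Let `d` divide both forms: `d ∣ X 0 ^ N`. `X 0` is prime (`MvPolynomial.X_prime`),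
so `d` is associated to `X 0 ^ i`, `i ≤ N` (`(dvd_prime_pow hp N).1`). If `i = 0`, `d` is a unit. If `i ≥ 1`: `X 0 ∣ fm ℚ l B.coeff`; evaluate at `![0, 1]` (`fm_evalQ`): the left factor gives `0`, the form gives `B.coeff l = B.leadingCoeff ≠ 0` (`hB`): contradiction.
-/

set_option autoImplicit false

namespace Pool.Agent.H47.SP

open Finset Polynomial Pool.Agent.H15.SC

private theorem fm_add (d : ℕ) (a b : ℕ → ℚ) :
    fm ℚ d (fun j => a j + b j) = fm ℚ d a + fm ℚ d b := by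
  unfold fm
  rw [← sum_add_distrib]
  exact sum_congr rfl fun j _ => map_add _ _ _

private theorem fm_one (N : ℕ) : fm ℚ N (1 : ℚ[X]).coeff = MvPolynomial.X 0 ^ N := by
  refine MvPolynomial.funext fun z => ?_
  have hz : z = ![z 0, z 1] := by
    ext i
    fin_cases i <;> rfl
  rw [hz, fm_evalQ, map_pow, MvPolynomial.eval_X, sum_eq_single 0]
  · simp
  · intro j _ hj
    rw [coeff_one, if_neg hj]
    ring
  · intro h
    exact absurd (mem_range.2 (Nat.succ_pos N)) h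

theorem fm_rel {k l : ℕ} {A B : ℚ[X]} (hA : A.natDegree ≤ k) (hB : B.natDegree = l) (hB0 : B ≠ 0)
    (hc : IsCoprime A B) : IsRelPrime (fm ℚ k A.coeff) (fm ℚ l B.coeff) := by
  obtain ⟨u, v, huv⟩ := hc
  intro d hd1 hd2
  obtain ⟨N, hN⟩ : ∃ N, N = k + l + u.natDegree + v.natDegree := ⟨_, rfl⟩
  have e1 : N - k + k = N := by omega
  have e2 : N - l + l = N := by omega
  have h1 : fm ℚ N (1 : ℚ[X]).coeff =
      fm ℚ (N - k) u.coeff * fm ℚ k A.coeff + fm ℚ (N - l) v.coeff * fm ℚ l B.coeff := by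
    rw [← fm_mul (by omega) hA, ← fm_mul (by omega) hB.le, e1, e2, ← fm_add, ← huv]
    rfl
  have h2 : d ∣ (MvPolynomial.X 0 : MvPolynomial (Fin 2) ℚ) ^ N := by
    rw [← fm_one, h1]
    exact dvd_add (dvd_mul_of_dvd_right hd1 _) (dvd_mul_of_dvd_right hd2 _)
  obtain ⟨i, -, hi⟩ := (dvd_prime_pow (MvPolynomial.X_prime (i := (0 : Fin 2))) N).1 h2
  rcases Nat.eq_zero_or_pos i with h0 | h0
  · rw [h0, pow_zero] at hi
    exact associated_one_iff_isUnit.1 hi
  · exfalso
    have h3 : (MvPolynomial.X 0 : MvPolynomial (Fin 2) ℚ) ∣ fm ℚ l B.coeff :=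
      ((dvd_pow_self _ h0.ne').trans hi.symm.dvd).trans hd2
    obtain ⟨w, hw⟩ := h3
    have h4 := congrArg (MvPolynomial.eval ![(0 : ℚ), 1]) hw
    rw [map_mul, MvPolynomial.eval_X, fm_evalQ, sum_eq_single l] at h4
    · rw [Nat.sub_self] at h4
      have h5 : B.coeff l = 0 := by simpa using h4
      rw [← hB, coeff_natDegree, leadingCoeff_eq_zero] at h5
      exact hB0 h5
    · intro j hj hjl
      have := mem_range.1 hj
      rw [zero_pow (by omega), mul_zero, zero_mul]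
    · intro h
      exact absurd (mem_range.2 (Nat.lt_succ_self l)) h

end Pool.Agent.H47.SP
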