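import Pool.Agent.H47.SP.Defs

/-!
# Module CF: a real flex at infinity

PROOF. `exc_flex` (H72/ES/DensB.lean) with a better count: in its proof `unique_bound H (univ.filter fun m : Mon n => (m.1 : ℕ) ≠ n - 2) S ..` gives the exponent `card (Mon n) - (number of m with m.1 = n - 2) = NN n - (n - 1)`. So: apply the argument to `S.image (vec n)` (`vec_inj_on`, `vec_box`), copy the proof (it uses `flex_determined`, `part_coeff`, `arr_congr`, `arr_inj`), and count: the `m` with `(m.1 : ℕ) = n - 2` are the `⟨n - 2, j⟩`, `j < n - 1` (compare `card_top`): `n - 1` elements; `card_mon`. `arr F 0 n ≠ 0` is the leading coefficient of `ld n F` (`ld_coeff`, `natDegree = n`, `ld ≠ 0`),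
`leadQ n (arrM F) = (ld n F).map` (`ld_leadQ`), `part n 0 = ld` (`ld_part`), `arr (vec n F) = arrM F` (`arr_vec`).
-/

set_option autoImplicit false

namespace Pool.Agent.H47.SP

open Finset Polynomial Pool.Agent.H72.ES

private theorem card_bound {n r : ℕ} (A : Finset (Mon n)) (f : Fin r → Mon n) (hf : Function.Injective f)
    (hA : ∀ j, f j ∉ A) : A.card ≤ NN n - r := by
  classical
  have h1 : Disjoint A (univ.image f) := by
    rw [disjoint_left]
    intro m hm hm'
    obtain ⟨j, -, rfl⟩ := mem_image.1 hm'
    exact hA j hm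
  have h2 : A.card + r ≤ NN n := by
    rw [← card_mon n]
    calc A.card + r = A.card + (univ.image f).card := by
          rw [card_image_of_injective _ hf, card_univ, Fintype.card_fin]
      _ = (A ∪ univ.image f).card := (card_union_of_disjoint h1).symm
      _ ≤ Fintype.card (Mon n) := card_le_univ _
  omega

theorem cf {n H : ℕ} (hn : 4 ≤ n) (S : Finset MP) (hS : ∀ F ∈ S, InBox n H F)
    (h1 : ∀ F ∈ S, (ld n F).natDegree = n ∧ Irreducible ((ld n F).map (Int.castRingHom ℚ)) ∧
      ∃ θ : ℝ, aeval θ (ld n F) = 0 ∧ aeval θ (flexP n (arrM F)) = 0) :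
    S.card ≤ (2 * H + 1) ^ (NN n - (n - 1)) := by
  classical
  have h1' : (S.image (vec n)).card = S.card := card_image_of_injOn (vec_inj_on S hS)
  rw [← h1']
  have hn2 : n - 2 < n + 1 := by omega
  refine (unique_bound H (univ.filter fun m : Mon n => (m.1 : ℕ) ≠ n - 2) (S.image (vec n)) ?_ ?_).trans
    (Nat.pow_le_pow_right (by omega) ((card_bound _ (fun j : Fin (n - 2 + 1) => (⟨⟨n - 2, hn2⟩, j⟩ : Mon n))
      ?_ ?_).trans (by omega)))
  · intro F hF m
    obtain ⟨G, hG, rfl⟩ := mem_image.1 hF
    exact vec_bd (hS G hG) m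
  · intro F0 hF0 F0' hF0' h
    obtain ⟨F, hF, rfl⟩ := mem_image.1 hF0
    obtain ⟨F', hF', rfl⟩ := mem_image.1 hF0'
    have hagree : ∀ i j, i + j ≠ n - 2 → arrM F i j = arrM F' i j := by
      intro i j hij
      rw [← arr_vec (hS F hF).deg, ← arr_vec (hS F' hF').deg]
      by_cases hle : i + j ≤ n
      · refine arr_congr hle (h _ ?_)
        simp only [mem_filter, mem_univ, true_and, mo_deg]
        exact hij
      · rw [arr_supp _ i j (by omega), arr_supp _ i j (by omega)]
    have hp0 : part n 0 (arrM F) = part n 0 (arrM F') := by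
      unfold part
      refine sum_congr rfl fun j hj => ?_
      simp only [mem_range] at hj
      rw [hagree _ _ (by omega)]
    have hp1 : part n 1 (arrM F) = part n 1 (arrM F') := by
      unfold part
      refine sum_congr rfl fun j hj => ?_
      simp only [mem_range] at hj
      rw [hagree _ _ (by omega)]
    obtain ⟨ha, hirr, θ, hθ, hfl⟩ := h1 F hF
    obtain ⟨_, _, θ', hθ', hfl'⟩ := h1 F' hF'
    have ha0 : arrM F 0 n ≠ 0 := by
      have h2 := ld_coeff (n := n) F n le_rfl
      rw [Nat.sub_self] at h2
      rw [← h2]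
      intro h3
      have h4 : ld n F ≠ 0 := by
        intro h5
        rw [h5, natDegree_zero] at ha
        omega
      apply h4
      rw [← leadingCoeff_eq_zero, leadingCoeff, ha]
      exact h3
    rw [← ld_part] at hθ hθ'
    rw [← ld_leadQ] at hirr
    have hp2 := flex_determined hn (arrM F) (arrM F') ha0 hirr hp0 hp1 θ θ' hθ hθ' hfl hfl'
    have h5 : F = F' := by
      apply arrM_inj
      funext i j
      by_cases hij : i + j = n - 2
      · have h2 : (part n 2 (arrM F)).coeff j = (part n 2 (arrM F')).coeff j := by rw [hp2]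
        rw [part_coeff n 2 _ j (by omega), part_coeff n 2 _ j (by omega)] at h2
        have h3 : n - 2 - j = i := by omega
        rw [h3] at h2
        exact h2
      · exact hagree i j hij
    rw [h5]
  · intro i j h
    simpa using h
  · intro j hj
    exact (mem_filter.1 hj).2 rfl

end Pool.Agent.H47.SP
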