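import Pool.Agent.H47.SP.Defs

/-!
# Module CM: the main part (irreducible leading form, no real flex at infinity)

PROOF. As `exc_main` (H72/ES/DensB.lean) and `total_exceptions` (H72/ES/Total.lean). Let `A` be the set of the `m : Mon n` with `n < (m.1 : ℕ) + 4`; `A.card = (n + 1) + n + (n - 1) + (n - 2) = 4 * n - 2` (`n ≥ 4`; the `m` with `m.1 = d` are `d + 1` in number). `fiber_bound A (S.image (vec n)) (39 * n ^ 3) ((2 H + 1) ^ A.card) (image_bound ..)` (H72/ES/Dens), `card_image_of_injOn (vec_inj_on S hS)`. The fibre condition: `T0 ⊆ S.image (vec n)` with `vec n F m = vec n F0 m` for `m ∈ A`: let `T = S.filter (vec n · ∈ T0)`; for `F ∈ T`: `Top4 n (arrM F) (arrM F0)` (`arr_vec`, `arr_congr`).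
Choose for each `F ∈ T` a zero `P F = (x, y)` with `H ^ (5300000 n^5) < max |x| |y|`. `P` is injective on `T`: `shared_point` (H72/ES/Excep.lean; its threshold `H ^ (600 n^5)` is smaller, `pow_le_pow_right₀`; `arrM_supp`, `eval_arrM`), `arrM_inj`. `main_total hn (arrM F0) ..` for `T.image P`: `(T.image P).card ≤ 39 * n ^ 3`. The hypotheses on `arrM F0`: `arrM F0 0 n ≠ 0` is the leading coefficient of `ld n F0` (`ld_coeff`), `leadQ n (arrM F0) = (ld n F0).map` (`ld_leadQ`), `part n 0 = ld` (`ld_part`).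
-/

set_option autoImplicit false

namespace Pool.Agent.H47.SP

open Finset Polynomial Pool.Agent.H72.ES

private theorem card_deg (n d : ℕ) (hd : d < n + 1) :
    (univ.filter fun m : Mon n => (m.1 : ℕ) = d).card = d + 1 := by
  have h1 : (univ.filter fun m : Mon n => (m.1 : ℕ) = d) =
      (univ : Finset (Fin (d + 1))).image (fun j => (⟨⟨d, hd⟩, j⟩ : Mon n)) := by
    ext m
    simp only [mem_filter, mem_univ, true_and, mem_image]
    constructor
    · intro h
      obtain ⟨⟨e, he⟩, j⟩ := m
      simp only at h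
      subst h
      exact ⟨j, rfl⟩
    · rintro ⟨j, rfl⟩
      rfl
  have hinj : Function.Injective (fun j : Fin (d + 1) => (⟨⟨d, hd⟩, j⟩ : Mon n)) := by
    intro i j h
    simpa using h
  rw [h1]
  exact (card_image_of_injective (univ : Finset (Fin (d + 1))) hinj).trans (by simp)

private theorem card_top4 {n : ℕ} (hn : 4 ≤ n) :
    (univ.filter fun m : Mon n => n < (m.1 : ℕ) + 4).card = 4 * n - 2 := by
  classical
  have h1 : (univ.filter fun m : Mon n => n < (m.1 : ℕ) + 4) =
      (range 4).biUnion fun i => univ.filter fun m : Mon n => (m.1 : ℕ) = n - i := by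
    ext m
    simp only [mem_filter, mem_univ, true_and, mem_biUnion, mem_range]
    have hm : (m.1 : ℕ) < n + 1 := m.1.2
    constructor
    · intro h
      exact ⟨n - (m.1 : ℕ), by omega, by omega⟩
    · rintro ⟨i, hi, h⟩
      omega
  rw [h1, card_biUnion]
  · rw [sum_congr rfl fun i hi => card_deg n (n - i) (by omega)]
    simp only [sum_range_succ, sum_range_zero]
    omega
  · intro i hi j hj hij
    have hi' := mem_range.1 hi
    have hj' := mem_range.1 hj
    show Disjoint _ _
    rw [disjoint_left]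
    intro m hm hm'
    have e1 := (mem_filter.1 hm).2
    have e2 := (mem_filter.1 hm').2
    omega

theorem cm {n H : ℕ} (hn : 4 ≤ n) (hH : 2 ≤ H) (S : Finset MP)
    (hS : ∀ F ∈ S, InBox n H F ∧ Big H (5300000 * n ^ 5) F)
    (h1 : ∀ F ∈ S, (ld n F).natDegree = n ∧ Irreducible ((ld n F).map (Int.castRingHom ℚ)) ∧
      ∀ θ : ℝ, aeval θ (ld n F) = 0 → aeval θ (flexP n (arrM F)) ≠ 0) :
    S.card ≤ 39 * n ^ 3 * (2 * H + 1) ^ (4 * n - 2) := by
  classical
  rw [← card_image_of_injOn (vec_inj_on S fun F hF => (hS F hF).1)]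
  have hbox : ∀ v ∈ S.image (vec n), ∀ m, |v m| ≤ (H : ℤ) := by
    intro v hv m
    obtain ⟨F, hF, rfl⟩ := mem_image.1 hv
    exact vec_bd (hS F hF).1 m
  refine fiber_bound (univ.filter fun m : Mon n => n < (m.1 : ℕ) + 4) (S.image (vec n))
    (39 * n ^ 3) ((2 * H + 1) ^ (4 * n - 2)) ?_ ?_
  · have h2 := image_bound H (univ.filter fun m : Mon n => n < (m.1 : ℕ) + 4)
      (S.image (vec n)) hbox
    rwa [card_top4 hn] at h2
  · intro v0 hv0 T0 hT0 hag
    obtain ⟨F0, hF0, rfl⟩ := mem_image.1 hv0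
    obtain ⟨hd0, hirr0, hfl0⟩ := h1 F0 hF0
    have ha : arrM F0 0 n ≠ 0 := by
      have e1 := ld_coeff F0 n le_rfl
      rw [Nat.sub_self] at e1
      rw [← e1]
      have e2 : (ld n F0).coeff n = (ld n F0).leadingCoeff := by
        rw [leadingCoeff, hd0]
      rw [e2, Ne, leadingCoeff_eq_zero]
      intro h0
      rw [h0, natDegree_zero] at hd0
      omega
    set T := S.filter (fun F => vec n F ∈ T0) with hT
    have hTS : T ⊆ S := filter_subset _ _
    have hTcard : T0.card ≤ T.card := by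
      have h2 : T0 ⊆ T.image (vec n) := by
        intro v hv
        obtain ⟨F, hF, rfl⟩ := mem_image.1 (hT0 hv)
        exact mem_image_of_mem _ (mem_filter.2 ⟨hF, hv⟩)
      exact (card_le_card h2).trans card_image_le
    have htop : ∀ F ∈ T, Top4 n (arrM F) (arrM F0) := by
      intro F hF i j hij h4
      have h2 := hag (vec n F) (mem_filter.1 hF).2 (mo i j hij) (by
        simp only [mem_filter, mem_univ, true_and, mo_deg]
        exact h4)
      rw [← arr_vec (hS F (hTS hF)).1.deg, ← arr_vec (hS F0 hF0).1.deg]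
      exact arr_congr hij h2
    have hex : ∀ F : MP, ∃ P : ℤ × ℤ, F ∈ T → (H : ℤ) ^ (5300000 * n ^ 5) < max |P.1| |P.2| ∧
        MvPolynomial.eval ![P.1, P.2] F = 0 := by
      intro F
      by_cases hF : F ∈ T
      · obtain ⟨x, y, hxy, h0⟩ := (hS F (hTS hF)).2
        exact ⟨(x, y), fun _ => ⟨hxy, h0⟩⟩
      · exact ⟨(0, 0), fun h => absurd h hF⟩
    choose P hP using hex
    have hinj : Set.InjOn P (T : Set MP) := by
      intro F hF G hG hFG
      have hF' : F ∈ T := hF
      have hG' : G ∈ T := hG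
      have hle : (H : ℤ) ^ (600 * n ^ 5) ≤ (H : ℤ) ^ (5300000 * n ^ 5) :=
        pow_le_pow_right₀ (by exact_mod_cast (by omega : 1 ≤ H))
          (Nat.mul_le_mul_right _ (by norm_num))
      apply arrM_inj
      refine shared_point hn hH (arrM F0) ha (by rw [ld_leadQ]; exact hirr0) (arrM F) (arrM G)
        (fun i j _ => (hS F (hTS hF')).1.bd _) (fun i j _ => (hS G (hTS hG')).1.bd _)
        (htop F hF') (htop G hG') (arrM_supp (hS F (hTS hF')).1.deg)
        (arrM_supp (hS G (hTS hG')).1.deg) (P F) (lt_of_le_of_lt hle (hP F hF').1) ?_ ?_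
      · rw [← eval_arrM (hS F (hTS hF')).1.deg]
        exact (hP F hF').2
      · rw [hFG, ← eval_arrM (hS G (hTS hG')).1.deg]
        exact (hP G hG').2
    refine hTcard.trans ?_
    rw [← card_image_of_injOn hinj]
    refine main_total hn (arrM F0) ha (by rw [ld_leadQ]; exact hirr0) ?_ (T.image P) ?_
    · intro θ hθ
      rw [ld_part] at hθ
      exact hfl0 θ hθ
    · intro Q hQ
      obtain ⟨F, hF, rfl⟩ := mem_image.1 hQ
      refine ⟨H, hH, (hP F hF).1, arrM F, fun i j _ => (hS F (hTS hF)).1.bd _, htop F hF, ?_⟩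
      rw [← eval_arrM (hS F (hTS hF)).1.deg]
      exact (hP F hF).2

end Pool.Agent.H47.SP
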