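import Pool.Agent.H47.SP.Defs
import Pool.Agent.H8.NoPt.Gelf

/-!
# Module CPA: the base of a power has coefficients `O(√H)`

PROOF. `g = C a * p ^ j`, `2 ≤ j`, `a ≠ 0`, `p ≠ 0`. Degrees: `j * p.natDegree = n ≥ 1`, so `p.natDegree ≥ 1`, `j ≤ n`, `2 * p.natDegree ≤ n`, `p.natDegree ≤ n / 2`. `|a| ≤ |a| |lc p|^j = |lc g| ≤ H`. Put `M = 2 ^ n * (n + 1)` and `gelfond` (H8/NoPt/Gelf) for (i) `g = p * (C a * p ^ (j - 1))`: `|p_i| |q_k| ≤ M H` with `q = C a * p ^ (j - 1)`; (ii) `q = p * r`, `r = C a * p ^ (j - 2)`: with `M' = max_k |q_k|` (over `k ≤ n`): `|p_i| |r_l| ≤ M M'`. Choose `l` with `r_l ≠ 0` (`|r_l| ≥ 1`): `|p_i| ≤ M M'`, and `k` with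
`|q_k| = M'`: `|p_i| M' ≤ M H`. So `p_i² = |p_i| |p_i| ≤ |p_i| M M' ≤ M² H`. `C = M ^ 2`.
-/

set_option autoImplicit false

namespace Pool.Agent.H47.SP

open Finset Polynomial

theorem pow_coeff {n : ℕ} (hn : 1 ≤ n) : ∃ C0 : ℕ, ∀ (H : ℕ) (g : ℤ[X]), 1 ≤ H →
    g.natDegree = n → (∀ i, |g.coeff i| ≤ (H : ℤ)) → Pow g →
    ∃ (a : ℤ) (p : ℤ[X]) (j : ℕ), 2 ≤ j ∧ j ≤ n ∧ g = C a * p ^ j ∧ |a| ≤ (H : ℤ) ∧
      p.natDegree ≤ n / 2 ∧ ∀ i, (p.coeff i) ^ 2 ≤ (C0 * H : ℕ) := by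
  refine ⟨(2 ^ n * (n + 1)) ^ 2, ?_⟩
  rintro H g hH hdeg hb ⟨a, p, j, hj, rfl⟩
  have hg0 : C a * p ^ j ≠ 0 := by
    intro h
    rw [h, natDegree_zero] at hdeg
    omega
  have ha : a ≠ 0 := by
    rintro rfl
    simp at hg0
  have hp : p ≠ 0 := by
    rintro rfl
    apply hg0
    rw [zero_pow (by omega), mul_zero]
  have hd : j * p.natDegree = n := by rw [← hdeg, natDegree_C_mul ha, natDegree_pow]
  have hd1 : 1 ≤ p.natDegree := by
    rcases Nat.eq_zero_or_pos p.natDegree with h | h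
    · rw [h] at hd
      omega
    · exact h
  have hjn : j ≤ n := by
    rw [← hd]
    exact Nat.le_mul_of_pos_right _ hd1
  have h2d : 2 * p.natDegree ≤ n := by
    rw [← hd]
    exact Nat.mul_le_mul_right _ hj
  refine ⟨a, p, j, hj, hjn, rfl, ?_, by omega, ?_⟩
  · have h1 := hb (C a * p ^ j).natDegree
    change |(C a * p ^ j).leadingCoeff| ≤ _ at h1
    rw [leadingCoeff_mul, leadingCoeff_C, leadingCoeff_pow, abs_mul, abs_pow] at h1
    have h2 : 1 ≤ |p.leadingCoeff| ^ j := one_le_pow₀ (Int.one_le_abs (leadingCoeff_ne_zero.2 hp))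
    nlinarith [abs_nonneg a]
  · intro i
    rcases eq_or_ne (p.coeff i) 0 with hi | hi
    · rw [hi]
      positivity
    obtain ⟨j', rfl⟩ : ∃ j', j = j' + 2 := ⟨j - 2, by omega⟩
    have hr0 : C a * p ^ j' ≠ 0 := mul_ne_zero (by simpa using ha) (pow_ne_zero _ hp)
    have hq0 : p * (C a * p ^ j') ≠ 0 := mul_ne_zero hp hr0
    have hpq : p * (p * (C a * p ^ j')) = C a * p ^ (j' + 2) := by ring
    have hpq0 : p * (p * (C a * p ^ j')) ≠ 0 := mul_ne_zero hp hq0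
    have hpd : (p * (p * (C a * p ^ j'))).natDegree ≤ n := by rw [hpq, hdeg]
    have hqd : (p * (C a * p ^ j')).natDegree ≤ n := by
      rw [natDegree_mul hp hq0] at hpd
      omega
    have hpos : (0 : ℝ) < |(p.coeff i : ℝ)| := abs_pos.2 (by exact_mod_cast hi)
    have h1 := fun k => Pool.Agent.H8.NoPt.gelfond n p (p * (C a * p ^ j')) hpq0 hpd (H : ℝ)
      (fun k => by
        rw [hpq]
        exact_mod_cast hb k) i k
    have h2 : ∀ k, |((p * (C a * p ^ j')).coeff k : ℝ)| ≤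
        2 ^ n * (n + 1) * H / |(p.coeff i : ℝ)| := by
      intro k
      rw [le_div_iff₀ hpos, mul_comm]
      exact h1 k
    obtain ⟨l, hl⟩ : ∃ l, (C a * p ^ j').coeff l ≠ 0 := by
      by_contra hcon
      push Not at hcon
      exact hr0 (Polynomial.ext (by simpa using hcon))
    have h3 := Pool.Agent.H8.NoPt.gelfond n p (C a * p ^ j') hq0 hqd _ h2 i l
    have h4 : (1 : ℝ) ≤ |((C a * p ^ j').coeff l : ℝ)| := by
      have := Int.one_le_abs hl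
      exact_mod_cast this
    have h5 : |(p.coeff i : ℝ)| ≤ 2 ^ n * (n + 1) * (2 ^ n * (n + 1) * H / |(p.coeff i : ℝ)|) := by
      refine le_trans ?_ h3
      exact le_mul_of_one_le_right hpos.le h4
    have h6 : |(p.coeff i : ℝ)| ^ 2 ≤ (2 ^ n * (n + 1)) ^ 2 * H := by
      calc |(p.coeff i : ℝ)| ^ 2 = |(p.coeff i : ℝ)| * |(p.coeff i : ℝ)| := sq _
        _ ≤ (2 ^ n * (n + 1) * (2 ^ n * (n + 1) * H / |(p.coeff i : ℝ)|)) *
            |(p.coeff i : ℝ)| := mul_le_mul_of_nonneg_right h5 hpos.le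
        _ = (2 ^ n * (n + 1)) ^ 2 * H := by
            field_simp
    rw [sq_abs] at h6
    exact_mod_cast h6

end Pool.Agent.H47.SP
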