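import Pool.Agent.H47.SP.CPA

/-!
# Module CPB: the number of proper powers

PROOF. `C0` from `pow_coeff`. Put `s = Nat.sqrt (C0 * H)`, `h = n / 2`. `p` has degree `≤ h` and `|p_i| ≤ s` (`Nat.le_sqrt`), so it is given by a vector `Fin (h + 1) → ℤ` with entries in `[-s, s]`: `(2 s + 1) ^ (h + 1)` vectors. `T` is contained in the image of (vector, `a ∈ [-H, H]`, `j ≤ n`) under `C a * p ^ j`: `T.card ≤ (n + 1) * (2 H + 1) * (2 s + 1) ^ (h + 1)`. `(2 s + 1) ^ 2 ≤ 9 * (C0 + 1) * (2 H + 1)` (`s ^ 2 ≤ C0 H`, `1 ≤ H`) and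
`(2 s + 1) ^ (h + 1) ≤ ((2 s + 1) ^ 2) ^ ((h + 2) / 2)` (`h + 1 ≤ 2 * ((h + 2) / 2)`). So `T.card ≤ C (2 H + 1) ^ (1 + (h + 2) / 2)` with `C = (n + 1) * (9 * (C0 + 1)) ^ ((h + 2) / 2)`.
-/

set_option autoImplicit false

namespace Pool.Agent.H47.SP

open Finset Polynomial

theorem pow_count {n : ℕ} (hn : 1 ≤ n) : ∃ C1 : ℕ, ∀ H : ℕ, 1 ≤ H → ∀ T : Finset ℤ[X],
    (∀ g ∈ T, g.natDegree = n ∧ (∀ i, |g.coeff i| ≤ (H : ℤ)) ∧ Pow g) →
    T.card ≤ C1 * (2 * H + 1) ^ (1 + (n / 2 + 2) / 2) := by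
  classical
  obtain ⟨C0, hC0⟩ := pow_coeff hn
  refine ⟨(n + 1) * (9 * (C0 + 1)) ^ ((n / 2 + 2) / 2), fun H hH T hT => ?_⟩
  obtain ⟨h, hh⟩ : ∃ h, h = n / 2 := ⟨_, rfl⟩
  obtain ⟨s, hs⟩ : ∃ s, s = Nat.sqrt (C0 * H) := ⟨_, rfl⟩
  let Bx : Finset (ℤ × ℕ × (Fin (h + 1) → ℤ)) := (Icc (-(H : ℤ)) H) ×ˢ (range (n + 1)) ×ˢ
    Fintype.piFinset (fun _ : Fin (h + 1) => Icc (-(s : ℤ)) s)
  let Φ : ℤ × ℕ × (Fin (h + 1) → ℤ) → ℤ[X] := fun q =>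
    C q.1 * (∑ i : Fin (h + 1), C (q.2.2 i) * X ^ (i : ℕ)) ^ q.2.1
  have hsub : T ⊆ Bx.image Φ := by
    intro g hg
    obtain ⟨hd, hb, hP⟩ := hT g hg
    obtain ⟨a, p, j, hj2, hjn, hgp, ha, hpd, hpc⟩ := hC0 H g hH hd hb hP
    rw [mem_image]
    refine ⟨(a, j, fun i => p.coeff i), ?_, ?_⟩
    · rw [mem_product, mem_product, Fintype.mem_piFinset]
      refine ⟨mem_Icc.2 (abs_le.1 ha), mem_range.2 (by simp only; omega), fun i => ?_⟩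
      simp only
      rw [mem_Icc, ← abs_le]
      have h1 := hpc i
      have h2 : (p.coeff i).natAbs ≤ s := by
        rw [hs, Nat.le_sqrt']
        have h3 : (((p.coeff i).natAbs ^ 2 : ℕ) : ℤ) ≤ ((C0 * H : ℕ) : ℤ) := by
          rw [Nat.cast_pow, Int.natCast_natAbs, sq_abs]
          exact h1
        exact_mod_cast h3
      rw [← Int.natCast_natAbs]
      exact_mod_cast h2
    · show C a * (∑ i : Fin (h + 1), C (p.coeff i) * X ^ (i : ℕ)) ^ j = g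
      rw [hgp]
      congr 2
      rw [Fin.sum_univ_eq_sum_range (fun i => C (p.coeff i) * (X : ℤ[X]) ^ i) (h + 1)]
      conv_rhs => rw [p.as_sum_range' (h + 1) (by omega)]
      exact sum_congr rfl fun i _ => C_mul_X_pow_eq_monomial
  have hcard : T.card ≤ (2 * H + 1) * ((n + 1) * (2 * s + 1) ^ (h + 1)) := by
    refine (card_le_card hsub).trans (card_image_le.trans (le_of_eq ?_))
    rw [card_product, card_product, Fintype.card_piFinset, prod_const, card_univ, Fintype.card_fin,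
      card_range, Int.card_Icc, Int.card_Icc]
    have e1 : ((H : ℤ) + 1 - -(H : ℤ)).toNat = 2 * H + 1 := by omega
    have e2 : ((s : ℤ) + 1 - -(s : ℤ)).toNat = 2 * s + 1 := by omega
    rw [e1, e2]
  have hs2 : s * s ≤ C0 * H := by
    rw [hs]
    exact Nat.sqrt_le (C0 * H)
  have h4 : (2 * s + 1) ^ 2 ≤ 9 * (C0 + 1) * (2 * H + 1) := by
    have h5 : s ≤ s * s := Nat.le_mul_self s
    nlinarith [Nat.zero_le (C0 * H), Nat.zero_le C0, Nat.zero_le H]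
  have h6 : (2 * s + 1) ^ (h + 1) ≤ (9 * (C0 + 1) * (2 * H + 1)) ^ ((h + 2) / 2) := by
    calc (2 * s + 1) ^ (h + 1) ≤ (2 * s + 1) ^ (2 * ((h + 2) / 2)) :=
          Nat.pow_le_pow_right (by omega) (by omega)
      _ = ((2 * s + 1) ^ 2) ^ ((h + 2) / 2) := pow_mul _ _ _
      _ ≤ _ := Nat.pow_le_pow_left h4 _
  rw [← hh]
  calc T.card ≤ (2 * H + 1) * ((n + 1) * (2 * s + 1) ^ (h + 1)) := hcard
    _ ≤ (2 * H + 1) * ((n + 1) * (9 * (C0 + 1) * (2 * H + 1)) ^ ((h + 2) / 2)) :=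
        Nat.mul_le_mul_left _ (Nat.mul_le_mul_left _ h6)
    _ = (n + 1) * (9 * (C0 + 1)) ^ ((h + 2) / 2) * (2 * H + 1) ^ (1 + (h + 2) / 2) := by
        rw [mul_pow (9 * (C0 + 1)), pow_add, pow_one]
        ring

end Pool.Agent.H47.SP
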