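import Pool.Agent.H47.SP.CPB

/-!
# Module CPC: curves whose leading form is a proper power

PROOF. Fibres of `ld n` on `S`: for given `g` the `F ∈ S` with `ld n F = g` are determined by the coefficients at the `m : Mon n` with `m.1 ≠ Fin.last n` (`NN n - (n + 1)` of them, `card_top`, `card_mon`): `unique_bound` for the image under `vec n` (see the proof of `exc_red`, H72/ES/DensB.lean): at most `(2 H + 1) ^ (NN n - (n + 1))`. `S.card ≤ (2 H + 1) ^ (NN n - (n + 1)) * (S.image (ld n)).card` (`card_le_mul_card_image`), `pow_count` for `S.image (ld n)` (`ld_bd`). Exponents: `(NN n - (n + 1)) + (1 + (n / 2 + 2) / 2) = NN n - (3 * n - 1) / 4`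
(`omega` after `n + 1 ≤ NN n`: `(3 n - 1) / 4 = n - (n / 2 + 2) / 2`).
-/

set_option autoImplicit false

namespace Pool.Agent.H47.SP

open Finset Polynomial Pool.Agent.H72.ES

private theorem card_low (n : ℕ) :
    (univ.filter fun m : Mon n => ¬ m.1 = Fin.last n).card = NN n - (n + 1) := by
  have h4 := card_filter_add_card_filter_not (s := (univ : Finset (Mon n)))
    (fun m : Mon n => m.1 = Fin.last n)
  rw [card_top, card_univ, card_mon] at h4
  omega

private theorem vec_of_ld {n : ℕ} {F F' : MP} (h : ld n F = ld n F')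
    (h3 : ∀ m ∈ (univ.filter fun m : Mon n => ¬ m.1 = Fin.last n), vec n F m = vec n F' m) :
    vec n F = vec n F' := by
  funext m
  by_cases hm : m.1 = Fin.last n
  · obtain ⟨d, j⟩ := m
    simp only at hm
    subst hm
    have hj : (j : ℕ) ≤ n := Nat.lt_succ_iff.1 j.2
    have h1 := ld_coeff (n := n) F j hj
    have h2 := ld_coeff (n := n) F' j hj
    rw [h, h2] at h1
    show arrM F (n - (j : ℕ)) (j : ℕ) = arrM F' (n - (j : ℕ)) (j : ℕ)
    exact h1.symm
  · exact h3 m (mem_filter.2 ⟨mem_univ _, hm⟩)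

theorem cp {n : ℕ} (hn : 1 ≤ n) : ∃ C1 : ℕ, ∀ H : ℕ, 1 ≤ H → ∀ S : Finset MP,
    (∀ F ∈ S, InBox n H F ∧ (ld n F).natDegree = n ∧ Pow (ld n F)) →
    S.card ≤ C1 * (2 * H + 1) ^ (NN n - (3 * n - 1) / 4) := by
  classical
  obtain ⟨C1, hC1⟩ := pow_count hn
  refine ⟨C1, fun H hH S hS => ?_⟩
  have hI : (S.image (ld n)).card ≤ C1 * (2 * H + 1) ^ (1 + (n / 2 + 2) / 2) := by
    refine hC1 H hH _ ?_
    intro g hg
    obtain ⟨F, hF, rfl⟩ := mem_image.1 hg
    obtain ⟨h1, h2, h3⟩ := hS F hF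
    exact ⟨h2, fun i => ld_bd h1 i, h3⟩
  have hK : ∀ c ∈ S.image (ld n), (S.filter fun F => ld n F = c).card ≤
      (2 * H + 1) ^ (NN n - (n + 1)) := by
    intro c _
    have hT : ∀ F ∈ S.filter (fun F => ld n F = c), InBox n H F := fun F hF =>
      (hS F (mem_filter.1 hF).1).1
    rw [← card_image_of_injOn (vec_inj_on _ hT), ← card_low n]
    refine unique_bound H _ _ ?_ ?_
    · intro v hv m
      obtain ⟨F, hF, rfl⟩ := mem_image.1 hv
      exact vec_bd (hT F hF) m
    · intro v hv v' hv' h3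
      obtain ⟨F, hF, rfl⟩ := mem_image.1 hv
      obtain ⟨F', hF', rfl⟩ := mem_image.1 hv'
      exact vec_of_ld ((mem_filter.1 hF).2.trans (mem_filter.1 hF').2.symm) h3
  have h1 : S.card ≤ (2 * H + 1) ^ (NN n - (n + 1)) * (S.image (ld n)).card :=
    card_le_mul_card_image _ _ hK
  have h2 : n + 1 ≤ NN n := by
    rw [← card_mon]
    exact card_mon_ge n
  have h3 : (NN n - (n + 1)) + (1 + (n / 2 + 2) / 2) = NN n - (3 * n - 1) / 4 := by omega
  calc S.card ≤ (2 * H + 1) ^ (NN n - (n + 1)) * (S.image (ld n)).card := h1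
    _ ≤ (2 * H + 1) ^ (NN n - (n + 1)) * (C1 * (2 * H + 1) ^ (1 + (n / 2 + 2) / 2)) :=
        Nat.mul_le_mul_left _ hI
    _ = C1 * (2 * H + 1) ^ ((NN n - (n + 1)) + (1 + (n / 2 + 2) / 2)) := by
        rw [pow_add]
        ring
    _ = C1 * (2 * H + 1) ^ (NN n - (3 * n - 1) / 4) := by rw [h3]

end Pool.Agent.H47.SP
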