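import Pool.Agent.H47.SP.Defs
import Pool.Agent.H8.NoPt.Gelf

/-!
# Module CRB: heights of the factors (Gelfond), two variables

PROOF. Kronecker substitution `κ : MP → ℤ[X]`, `X 0 ↦ X`, `X 1 ↦ X ^ (n + 1)` (a ring homomorphism, `MvPolynomial.aeval`). For `G` of total degree `≤ n`: `(κ G).coeff (i + (n + 1) j) = G.coeff (ex i j)` for `i + j ≤ n` and all other coefficients of `κ G` vanish (different monomials have different exponents since `i ≤ n`), `κ G` has degree `≤ n (n + 1)`, and `κ G ≠ 0` if `G ≠ 0`. `A`, `B`, `A * B` have total degree `≤ n` (`MvPolynomial.totalDegree_mul_of_isDomain`). `gelfond (n * (n + 1)) (κ A) (κ B) ..` (H8/NoPt/Gelf) gives the claim with `C0 = 2 ^ (n (n + 1)) * (n (n + 1) + 1)`.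
Every `m : Fin 2 →₀ ℕ` is `ex (m 0) (m 1)` (`ex_eta`); if `n < m 0 + m 1` the coefficient of `A` is `0`.
-/

set_option autoImplicit false

namespace Pool.Agent.H47.SP

open Finset Polynomial Pool.Agent.H72.ES

/-- Kronecker substitution -/
private noncomputable def crb (n : ℕ) : MP →ₐ[ℤ] ℤ[X] := MvPolynomial.aeval ![X, X ^ (n + 1)]

private theorem crb_deg {n : ℕ} {G : MP} (hG : G.totalDegree ≤ n) {m : Fin 2 →₀ ℕ}
    (hm : G.coeff m ≠ 0) : m 0 + m 1 ≤ n := by
  by_contra h
  have h1 := arrM_supp hG (m 0) (m 1) (by omega)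
  unfold arrM at h1
  rw [ex_eta] at h1
  exact hm h1

private theorem crb_coeff {n : ℕ} {G : MP} (hG : G.totalDegree ≤ n) (m : Fin 2 →₀ ℕ)
    (hm : m 0 ≤ n) : (crb n G).coeff (m 0 + (n + 1) * m 1) = G.coeff m := by
  have h1 : crb n G = ∑ d ∈ G.support, C (G.coeff d) * X ^ (d 0 + (n + 1) * d 1) := by
    unfold crb
    rw [MvPolynomial.aeval_def, MvPolynomial.eval₂_eq']
    refine sum_congr rfl fun d _ => ?_
    rw [Fin.prod_univ_two]
    simp only [Matrix.cons_val_zero, Matrix.cons_val_one]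
    rw [← pow_mul, ← pow_add]
    rfl
  rw [h1, finsetSum_coeff]
  have h2 : ∀ d ∈ G.support, (C (G.coeff d) * X ^ (d 0 + (n + 1) * d 1) : ℤ[X]).coeff
      (m 0 + (n + 1) * m 1) = if d = m then G.coeff m else 0 := by
    intro d hd
    rw [coeff_C_mul, coeff_X_pow]
    have hd1 := crb_deg hG (MvPolynomial.mem_support_iff.1 hd)
    by_cases hdm : d = m
    · rw [hdm, if_pos rfl, if_pos rfl, mul_one]
    · rw [if_neg hdm, if_neg, mul_zero]
      intro heq
      apply hdm
      have h3 : m 0 = d 0 := by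
        have h4 := congrArg (· % (n + 1)) heq
        simp only [Nat.add_mul_mod_self_left] at h4
        rwa [Nat.mod_eq_of_lt (by omega), Nat.mod_eq_of_lt (by omega)] at h4
      have h5 : m 1 = d 1 := by
        rw [h3] at heq
        exact Nat.eq_of_mul_eq_mul_left (Nat.succ_pos n) (Nat.add_left_cancel heq)
      rw [← ex_eta d, ← ex_eta m, h3, h5]
  rw [sum_congr rfl h2, Finset.sum_ite_eq']
  by_cases hms : m ∈ G.support
  · rw [if_pos hms]
  · rw [if_neg hms, MvPolynomial.notMem_support_iff.1 hms]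

private theorem crb_coeff' {n : ℕ} {G : MP} (hG : G.totalDegree ≤ n) (k : ℕ) :
    (crb n G).coeff k = G.coeff (ex (k % (n + 1)) (k / (n + 1))) := by
  have h1 := crb_coeff hG (ex (k % (n + 1)) (k / (n + 1))) (by
    rw [ex_zero]
    exact Nat.lt_succ_iff.1 (Nat.mod_lt _ (Nat.succ_pos n)))
  rw [ex_zero, ex_one, Nat.mod_add_div] at h1
  exact h1

private theorem crb_natDegree {n : ℕ} {G : MP} (hG : G.totalDegree ≤ n) :
    (crb n G).natDegree ≤ n * (n + 1) := by
  rw [natDegree_le_iff_coeff_eq_zero]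
  intro k hk
  rw [crb_coeff' hG]
  refine arrM_supp hG _ _ ?_
  have h1 := Nat.mod_add_div k (n + 1)
  have h0 : k % (n + 1) < n + 1 := Nat.mod_lt _ (Nat.succ_pos n)
  generalize k % (n + 1) = r at h1 h0 ⊢
  generalize k / (n + 1) = q at h1 ⊢
  by_contra h2
  have h3 : r ≤ n - q := by omega
  have h4 : q ≤ n := by omega
  have h5 : r + (n + 1) * q ≤ n * (n + 1) := by
    obtain ⟨t, rfl⟩ : ∃ t, n = q + t := ⟨n - q, by omega⟩
    rw [Nat.add_sub_cancel_left] at h3
    nlinarith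
  omega

theorem mv_gelf (n : ℕ) : ∃ C0 : ℕ, ∀ (H : ℕ) (A B : MP), A * B ≠ 0 → (A * B).totalDegree ≤ n →
    (∀ m, |(A * B).coeff m| ≤ (H : ℤ)) → ∀ m m', |A.coeff m| * |B.coeff m'| ≤ (C0 * H : ℕ) := by
  refine ⟨2 ^ (n * (n + 1)) * (n * (n + 1) + 1), ?_⟩
  intro H A B hAB hdeg hb m m'
  have hA0 : A ≠ 0 := left_ne_zero_of_mul hAB
  have hB0 : B ≠ 0 := right_ne_zero_of_mul hAB
  have hd := MvPolynomial.totalDegree_mul_of_isDomain hA0 hB0
  have hA : A.totalDegree ≤ n := by omega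
  have hB : B.totalDegree ≤ n := by omega
  by_cases hm : A.coeff m = 0
  · rw [hm, abs_zero, zero_mul]
    exact Int.natCast_nonneg _
  by_cases hm' : B.coeff m' = 0
  · rw [hm', abs_zero, mul_zero]
    exact Int.natCast_nonneg _
  have h1 := crb_deg hA hm
  have h2 := crb_deg hB hm'
  have hne : crb n A * crb n B ≠ 0 := by
    rw [← map_mul]
    obtain ⟨d, hd⟩ := MvPolynomial.ne_zero_iff.1 hAB
    have h3 := crb_deg hdeg hd
    intro h0
    have h4 := crb_coeff hdeg d (by omega)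
    rw [h0, coeff_zero] at h4
    exact hd h4.symm
  have h3 := Pool.Agent.H8.NoPt.gelfond (n * (n + 1)) (crb n A) (crb n B) hne (by
    rw [← map_mul]
    exact crb_natDegree hdeg) (H : ℝ) (by
    intro k
    rw [← map_mul, crb_coeff' hdeg]
    exact_mod_cast hb _) (m 0 + (n + 1) * m 1) (m' 0 + (n + 1) * m' 1)
  rw [crb_coeff hA m (by omega), crb_coeff hB m' (by omega)] at h3
  exact_mod_cast h3

end Pool.Agent.H47.SP
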