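import Pool.Agent.H47.SP.Defs

/-!
# Module CRC: the number of products

`PB n H` is the finite set of the polynomials of the box. PROOF. (1) `S = {F | InBox n H F}` is finite with `(2 H + 1) ^ NN n` elements at most: `vec n` is injective on it (`vec_inj`) and maps it into `box n H` (`vec_box`, `card_box`, `card_mon`). (2) Let `T` be a finite set of products `A * B`, `A.totalDegree = k`, `B.totalDegree = l`, `1 ≤ k ≤ l`, `k + l ≤ n`, `A, B ≠ 0`, `|A_m| |B_m'| ≤ T0` for all `m, m'`. Put `x = max_m |A_m| ∈ [1, T0]` (a maximum over the finite support; `B` has a coefficient of modulus `≥ 1`): `A` is in the box `(k, x)` and `B` in the box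
`(l, T0 / x)`. So `T.card ≤ ∑_(x = 1)^(T0) (2 x + 1) ^ NN k * (2 (T0 / x) + 1) ^ NN l ≤ ∑ (3 x) ^ NN k * (3 T0 / x) ^ NN l` and `x ^ NN k ≤ x ^ NN l` (`NN k ≤ NN l`), `x (T0 / x) ≤ T0`: every term is `≤ 3 ^ (NN k + NN l) * T0 ^ NN l`. `T.card ≤ 3 ^ (NN k + NN l) * T0 ^ (NN l + 1)`.
-/

set_option autoImplicit false

namespace Pool.Agent.H47.SP

open Finset Polynomial Pool.Agent.H72.ES

theorem box_count (n H : ℕ) (S : Finset MP) (hS : ∀ F ∈ S, InBox n H F) :
    S.card ≤ (2 * H + 1) ^ NN n := by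
  classical
  rw [← card_image_of_injOn (vec_inj_on S hS), ← card_mon, ← card_box]
  refine card_le_card fun v hv => ?_
  obtain ⟨F, hF, rfl⟩ := mem_image.1 hv
  exact vec_box (hS F hF)

theorem nn_mono {k l : ℕ} (h : k ≤ l) : NN k ≤ NN l :=
  Nat.div_le_div_right (Nat.mul_le_mul (by omega) (by omega))

theorem inbox_finite (n H : ℕ) : {F : MP | InBox n H F}.Finite := by
  have h1 : ((vec n) '' {F : MP | InBox n H F}).Finite := by
    refine (box n H).finite_toSet.subset ?_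
    rintro v ⟨F, hF, rfl⟩
    exact vec_box hF
  refine Set.Finite.of_finite_image h1 ?_
  intro F hF G hG h
  exact vec_inj hF.deg hG.deg h

/-- the polynomials of the box -/
noncomputable def PB (n H : ℕ) : Finset MP := (inbox_finite n H).toFinset

theorem mem_PB {n H : ℕ} {F : MP} : F ∈ PB n H ↔ InBox n H F := by
  unfold PB
  rw [Set.Finite.mem_toFinset]
  rfl

theorem card_PB (n H : ℕ) : (PB n H).card ≤ (2 * H + 1) ^ NN n :=
  box_count n H _ fun _ hF => mem_PB.1 hF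

/-- height -/
def ht (A : MP) : ℕ := A.support.sup fun m => (A.coeff m).natAbs

theorem le_ht (A : MP) (m : Fin 2 →₀ ℕ) : (A.coeff m).natAbs ≤ ht A := by
  by_cases h : A.coeff m = 0
  · rw [h]
    exact Nat.zero_le _
  · exact Finset.le_sup (f := fun m => (A.coeff m).natAbs) (MvPolynomial.mem_support_iff.2 h)

theorem ht_attained {A : MP} (hA : A ≠ 0) : 1 ≤ ht A ∧ ∃ m, (A.coeff m).natAbs = ht A := by
  have hne : A.support.Nonempty := by
    rw [Finset.nonempty_iff_ne_empty]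
    intro h
    exact hA (MvPolynomial.support_eq_empty.1 h)
  obtain ⟨m, hm, h⟩ := Finset.exists_mem_eq_sup A.support hne fun m => (A.coeff m).natAbs
  refine ⟨?_, m, h.symm⟩
  have h1 := le_ht A m
  have h2 : (A.coeff m).natAbs ≠ 0 := Int.natAbs_ne_zero.2 (MvPolynomial.mem_support_iff.1 hm)
  omega

theorem term_bound {k l T0 x : ℕ} (hkl : k ≤ l) (h1 : 1 ≤ x) (h2 : x ≤ T0) :
    (2 * x + 1) ^ NN k * (2 * (T0 / x) + 1) ^ NN l ≤ 3 ^ (NN k + NN l) * T0 ^ NN l := by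
  have h3 : 1 ≤ T0 / x := (Nat.one_le_div_iff (by omega)).2 h2
  calc (2 * x + 1) ^ NN k * (2 * (T0 / x) + 1) ^ NN l
      ≤ (3 * x) ^ NN k * (3 * (T0 / x)) ^ NN l :=
        Nat.mul_le_mul (Nat.pow_le_pow_left (by omega) _) (Nat.pow_le_pow_left (by omega) _)
    _ = 3 ^ (NN k + NN l) * (x ^ NN k * (T0 / x) ^ NN l) := by
        rw [mul_pow, mul_pow, pow_add]
        ring
    _ ≤ 3 ^ (NN k + NN l) * (x ^ NN l * (T0 / x) ^ NN l) :=
        Nat.mul_le_mul_left _ (Nat.mul_le_mul_right _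
          (Nat.pow_le_pow_right h1 (nn_mono hkl)))
    _ = 3 ^ (NN k + NN l) * (x * (T0 / x)) ^ NN l := by rw [mul_pow]
    _ ≤ 3 ^ (NN k + NN l) * T0 ^ NN l :=
        Nat.mul_le_mul_left _ (Nat.pow_le_pow_left (Nat.mul_div_le T0 x) _)

theorem prod_count {k l T0 : ℕ} (hkl : k ≤ l) (T : Finset MP)
    (hT : ∀ F ∈ T, ∃ A B : MP, F = A * B ∧ A ≠ 0 ∧ B ≠ 0 ∧ A.totalDegree ≤ k ∧
      B.totalDegree ≤ l ∧ ∀ m m', |A.coeff m| * |B.coeff m'| ≤ (T0 : ℤ)) :
    T.card ≤ 3 ^ (NN k + NN l) * T0 ^ (NN l + 1) := by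
  classical
  have hsub : T ⊆ (Icc 1 T0).biUnion fun x =>
      ((PB k x) ×ˢ (PB l (T0 / x))).image fun p => p.1 * p.2 := by
    intro F hF
    obtain ⟨A, B, hAB, hA, hB, dA, dB, hb⟩ := hT F hF
    obtain ⟨a1, m, hm⟩ := ht_attained hA
    obtain ⟨b1, m', hm'⟩ := ht_attained hB
    have h1 : ht A * ht B ≤ T0 := by
      have h2 := hb m m'
      rw [Int.abs_eq_natAbs, Int.abs_eq_natAbs, hm, hm'] at h2
      exact_mod_cast h2
    rw [mem_biUnion]
    refine ⟨ht A, mem_Icc.2 ⟨a1, ?_⟩, mem_image.2 ⟨(A, B), mem_product.2 ⟨?_, ?_⟩, hAB.symm⟩⟩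
    · calc ht A = ht A * 1 := (mul_one _).symm
        _ ≤ ht A * ht B := Nat.mul_le_mul_left _ b1
        _ ≤ T0 := h1
    · refine mem_PB.2 ⟨dA, fun m => ?_⟩
      rw [Int.abs_eq_natAbs]
      exact_mod_cast le_ht A m
    · refine mem_PB.2 ⟨dB, fun m => ?_⟩
      rw [Int.abs_eq_natAbs]
      have h2 : ht B ≤ T0 / ht A := (Nat.le_div_iff_mul_le (by omega)).2 (by
        rw [mul_comm]
        exact h1)
      exact_mod_cast (le_ht B m).trans h2
  refine (card_le_card hsub).trans (card_biUnion_le.trans ?_)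
  have h3 : ∀ x ∈ Icc 1 T0, (((PB k x) ×ˢ (PB l (T0 / x))).image fun p => p.1 * p.2).card ≤
      3 ^ (NN k + NN l) * T0 ^ NN l := by
    intro x hx
    obtain ⟨h1, h2⟩ := mem_Icc.1 hx
    refine card_image_le.trans ?_
    rw [card_product]
    exact (Nat.mul_le_mul (card_PB k x) (card_PB l (T0 / x))).trans (term_bound hkl h1 h2)
  refine (sum_le_card_nsmul _ _ _ h3).trans (le_of_eq ?_)
  rw [Nat.card_Icc, smul_eq_mul, Nat.add_sub_cancel, pow_succ]
  ring

end Pool.Agent.H47.SP
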