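import Pool.Agent.H47.SP.CRA
import Pool.Agent.H47.SP.CRB
import Pool.Agent.H47.SP.CRC

/-!
# Module CR: few polynomials in two variables are reducible

PROOF. `C0` from `mv_gelf n`, `T0 = C0 * H`. Split `S` into the `F` of total degree `0` (constants: `F = C a`, `|a| ≤ H`: at most `2 H + 1 ≤ (2 H + 1) ^ (NN n - n)` since `n + 1 ≤ NN n`) and the others. For the others `red_factor`: `F = A * B`, total degrees `k, l ≥ 1`, `k + l = F.totalDegree ≤ n` (`MvPolynomial.totalDegree_mul_of_isDomain`); exchange so that `k ≤ l`; `l ≤ n - 1`. For each pair `(k, l)` (at most `(n + 1) ^ 2` pairs) `prod_count`: at most `3 ^ (NN k + NN l) * T0 ^ (NN l + 1)`, and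
`NN l + 1 ≤ NN (n - 1) + 1 = NN n - n` (`NN n = NN (n - 1) + (n + 1)`, monotone), `T0 ^ (NN l + 1) ≤ (C0 + 1) ^ (NN n) * (2 H + 1) ^ (NN n - n)`, `3 ^ (NN k + NN l) ≤ 9 ^ NN n`. (`n = 0`, `n = 1`: the second class is empty.)
-/

set_option autoImplicit false

namespace Pool.Agent.H47.SP

open Finset Polynomial Pool.Agent.H72.ES

private theorem NN_mono {k l : ℕ} (h : k ≤ l) : NN k ≤ NN l :=
  Nat.div_le_div_right (Nat.mul_le_mul (by omega) (by omega))

private theorem NN_succ (m : ℕ) : NN (m + 1) = NN m + (m + 2) := by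
  unfold NN
  have h : (m + 1 + 1) * (m + 1 + 2) = (m + 1) * (m + 2) + (m + 2) * 2 := by ring
  rw [h, Nat.add_mul_div_right _ _ (by norm_num)]

private theorem const_card (n H : ℕ) (S : Finset MP) (hS : ∀ F ∈ S, InBox n H F ∧ F.totalDegree = 0) :
    S.card ≤ 2 * H + 1 := by
  classical
  have h1 : S.card ≤ (Finset.Icc (-(H : ℤ)) H).card := by
    apply Finset.card_le_card_of_injOn (fun F => F.coeff 0)
    · intro F hF
      have h2 := (hS F hF).1.bd 0
      rw [Finset.coe_Icc, Set.mem_Icc]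
      exact abs_le.mp h2
    · intro F hF G hG hFG
      have h3 := MvPolynomial.totalDegree_eq_zero_iff_eq_C.mp (hS F hF).2
      have h4 := MvPolynomial.totalDegree_eq_zero_iff_eq_C.mp (hS G hG).2
      rw [h3, h4]
      simp only at hFG
      rw [hFG]
  rw [card_Icc_box] at h1
  exact h1

theorem cr {n : ℕ} (hn : 1 ≤ n) : ∃ C1 : ℕ, ∀ H : ℕ, 1 ≤ H → ∀ S : Finset MP,
    (∀ F ∈ S, InBox n H F ∧ ¬ IrrQ F) → S.card ≤ C1 * (2 * H + 1) ^ (NN n - n) := by
  classical
  obtain ⟨C0, hC0⟩ := mv_gelf n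
  refine ⟨1 + (n + 1) * (n + 1) * (9 ^ NN n * (C0 + 1) ^ NN n), fun H hH S hS => ?_⟩
  obtain ⟨m, rfl⟩ : ∃ m, n = m + 1 := ⟨n - 1, by omega⟩
  set n := m + 1 with hn'
  have hNN : NN n = NN m + (m + 2) := NN_succ m
  have hexp : NN n - n = NN m + 1 := by omega
  set T : ℕ × ℕ → Finset MP := fun p => S.filter fun F => 1 ≤ p.1 ∧ p.1 ≤ p.2 ∧ p.1 + p.2 ≤ n ∧
    ∃ A B : MP, F = A * B ∧ A ≠ 0 ∧ B ≠ 0 ∧ A.totalDegree ≤ p.1 ∧
      B.totalDegree ≤ p.2 ∧ ∀ m m', |A.coeff m| * |B.coeff m'| ≤ ((C0 * H : ℕ) : ℤ) with hT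
  have hcov : S ⊆ (S.filter fun F => F.totalDegree = 0) ∪
      (Finset.range (n + 1) ×ˢ Finset.range (n + 1)).biUnion T := by
    intro F hF
    by_cases h0 : F.totalDegree = 0
    · exact mem_union_left _ (mem_filter.mpr ⟨hF, h0⟩)
    refine mem_union_right _ (mem_biUnion.mpr ?_)
    obtain ⟨A, B, hAB, hA, hB⟩ := red_factor h0 (hS F hF).2
    have hA0 : A ≠ 0 := by rintro rfl; exact hA MvPolynomial.totalDegree_zero
    have hB0 : B ≠ 0 := by rintro rfl; exact hB MvPolynomial.totalDegree_zero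
    have hdeg : (A * B).totalDegree = A.totalDegree + B.totalDegree :=
      MvPolynomial.totalDegree_mul_of_isDomain hA0 hB0
    have hle : A.totalDegree + B.totalDegree ≤ n := by
      rw [← hdeg, ← hAB]; exact (hS F hF).1.deg
    have hbd := hC0 H A B (mul_ne_zero hA0 hB0) (by rw [hdeg]; exact hle) (by
      rw [← hAB]; exact (hS F hF).1.bd)
    rcases Nat.le_total A.totalDegree B.totalDegree with h1 | h1
    · refine ⟨(A.totalDegree, B.totalDegree), ?_, ?_⟩
      · rw [mem_product, mem_range, mem_range]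
        constructor <;> simp only <;> omega
      · rw [hT]
        refine mem_filter.mpr ⟨hF, ?_, h1, hle, A, B, hAB, hA0, hB0, le_rfl, le_rfl, hbd⟩
        simp only
        omega
    · refine ⟨(B.totalDegree, A.totalDegree), ?_, ?_⟩
      · rw [mem_product, mem_range, mem_range]
        constructor <;> simp only <;> omega
      · rw [hT]
        refine mem_filter.mpr ⟨hF, ?_, h1, ?_, B, A, by rw [hAB, mul_comm], hB0, hA0, le_rfl, le_rfl,
          fun m m' => ?_⟩
        · simp only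
          omega
        · simp only
          omega
        · rw [mul_comm]
          exact hbd m' m
  have hbig : 1 ≤ 2 * H + 1 := by omega
  have hT1 : ∀ p ∈ Finset.range (n + 1) ×ˢ Finset.range (n + 1),
      (T p).card ≤ 9 ^ NN n * (C0 + 1) ^ NN n * (2 * H + 1) ^ (NN n - n) := by
    rintro ⟨k, l⟩ _
    by_cases hkl : 1 ≤ k ∧ k ≤ l ∧ k + l ≤ n
    · obtain ⟨hk, hkl, hln⟩ := hkl
      have h1 := prod_count hkl (T (k, l)) (T0 := C0 * H) (by
        intro F hF
        exact (mem_filter.mp hF).2.2.2.2)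
      refine h1.trans ?_
      have h2 : NN l ≤ NN m := NN_mono (by omega)
      have h3 : NN k ≤ NN m := NN_mono (by omega)
      have h4 : 3 ^ (NN k + NN l) ≤ 9 ^ NN n := by
        calc 3 ^ (NN k + NN l) ≤ 3 ^ (2 * NN n) := Nat.pow_le_pow_right (by norm_num) (by omega)
          _ = 9 ^ NN n := by rw [pow_mul]; norm_num
      have h5 : (C0 * H) ^ (NN l + 1) ≤ (C0 + 1) ^ NN n * (2 * H + 1) ^ (NN n - n) := by
        calc (C0 * H) ^ (NN l + 1) ≤ ((C0 + 1) * (2 * H + 1)) ^ (NN l + 1) :=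
              Nat.pow_le_pow_left (Nat.mul_le_mul (by omega) (by omega)) _
          _ = (C0 + 1) ^ (NN l + 1) * (2 * H + 1) ^ (NN l + 1) := mul_pow _ _ _
          _ ≤ (C0 + 1) ^ NN n * (2 * H + 1) ^ (NN n - n) :=
              Nat.mul_le_mul (Nat.pow_le_pow_right (by omega) (by omega))
                (Nat.pow_le_pow_right (by omega) (by omega))
      calc 3 ^ (NN k + NN l) * (C0 * H) ^ (NN l + 1)
          ≤ 9 ^ NN n * ((C0 + 1) ^ NN n * (2 * H + 1) ^ (NN n - n)) := Nat.mul_le_mul h4 h5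
        _ = 9 ^ NN n * (C0 + 1) ^ NN n * (2 * H + 1) ^ (NN n - n) := by ring
    · have h1 : T (k, l) = ∅ := by
        rw [hT]
        apply filter_eq_empty_iff.mpr
        intro F _ hcon
        exact hkl ⟨hcon.1, hcon.2.1, hcon.2.2.1⟩
      rw [h1, card_empty]
      exact Nat.zero_le _
  have hS0 : (S.filter fun F => F.totalDegree = 0).card ≤ 1 * (2 * H + 1) ^ (NN n - n) := by
    have h1 := const_card n H (S.filter fun F => F.totalDegree = 0) (by
      intro F hF
      rw [mem_filter] at hF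
      exact ⟨(hS F hF.1).1, hF.2⟩)
    rw [one_mul]
    refine h1.trans ?_
    calc 2 * H + 1 = (2 * H + 1) ^ 1 := (pow_one _).symm
      _ ≤ _ := Nat.pow_le_pow_right (by omega) (by omega)
  calc S.card ≤ ((S.filter fun F => F.totalDegree = 0) ∪
      (Finset.range (n + 1) ×ˢ Finset.range (n + 1)).biUnion T).card := card_le_card hcov
    _ ≤ (S.filter fun F => F.totalDegree = 0).card +
      ((Finset.range (n + 1) ×ˢ Finset.range (n + 1)).biUnion T).card := card_union_le _ _
    _ ≤ 1 * (2 * H + 1) ^ (NN n - n) + (Finset.range (n + 1) ×ˢ Finset.range (n + 1)).card *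
        (9 ^ NN n * (C0 + 1) ^ NN n * (2 * H + 1) ^ (NN n - n)) :=
        Nat.add_le_add hS0 (card_biUnion_le_card_mul _ _ _ hT1)
    _ = (1 + (n + 1) * (n + 1) * (9 ^ NN n * (C0 + 1) ^ NN n)) * (2 * H + 1) ^ (NN n - n) := by
        rw [card_product, card_range]; ring

end Pool.Agent.H47.SP
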