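import Pool.Agent.H47.SP.Defs

/-!
# Module CRA: a polynomial which is reducible over `ℚ` is a product over `ℤ`

PROOF. `F' = map F` is not zero and not a unit (its total degree is `F.totalDegree ≠ 0`: `MvPolynomial.map` with an injective map preserves the support), so `F' = A0 * B0` with non-units `A0, B0`, of positive total degree (a polynomial over a field of total degree `0` is a constant, `totalDegree_eq_zero_iff_eq_C`, non-zero, so a unit). Gauss' lemma by the Kronecker substitution `κ : MvPolynomial (Fin 2) R → R[X]`, `X 0 ↦ X`, `X 1 ↦ X ^ (n + 1)` (`MvPolynomial.aeval`), `n = F.totalDegree`: for polynomials of total degree `≤ n` the coefficient of `x^i y^j` is the coefficient of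
`X ^ (i + (n + 1) j)` (the exponents are different for different `(i, j)`, `i ≤ n`). `κ F' = κ A0 * κ B0` over `ℚ` and `κ F' = (κ F).map`. Write `κ A0 = C a * α.map`, `κ B0 = C b * β.map` with `α, β` primitive integer polynomials, `a, b ≠ 0` rational (clear denominators, take the primitive part). `α * β` is primitive and `C (a b) * (α β).map = (κ F).map`, so `a b` is an integer `m` and `κ F = C m * α * β` (content). The polynomial `A1 = C b * A0` has `κ A1 = C (a b) * α.map`: integer coefficients; `B1 = C b⁻¹ * B0` has `κ B1 = β.map`: integer coefficients. So `A1, B1` come from `A, B : MP`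
(coefficients), `map (A * B) = A1 * B1 = F'`, `F = A * B` (`MvPolynomial.map_injective`), and `A.totalDegree = A0.totalDegree ≠ 0`, same for `B`. (Any other proof of Gauss' lemma in two variables is welcome, for example `MvPolynomial (Fin 2) ℤ` is a UFD: let `m` be the least positive integer with `m F = A B`, `A, B` integer multiples of `A0, B0`; if a prime `q` divides `m` then in the domain `MvPolynomial (Fin 2) (ZMod q)` the product of the reductions is `0`, so `q` divides all coefficients of `A` or of `B`, and `m / q` works: contradiction. THIS IS SHORTER: no Kronecker substitution.)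
-/

set_option autoImplicit false

namespace Pool.Agent.H47.SP

open Finset Polynomial

private theorem ra_clear (A0 : MvPolynomial (Fin 2) ℚ) :
    ∃ (d : ℕ) (A : MP), d ≠ 0 ∧
      MvPolynomial.map (Int.castRingHom ℚ) A = MvPolynomial.C (d : ℚ) * A0 := by
  induction A0 using MvPolynomial.induction_on with
  | C a =>
    refine ⟨a.den, MvPolynomial.C a.num, a.den_nz, ?_⟩
    rw [MvPolynomial.map_C, ← MvPolynomial.C_mul]
    congr 1
    rw [mul_comm]
    exact (Rat.mul_den_eq_num a).symm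
  | add p q hp hq =>
    obtain ⟨d1, A1, h1, e1⟩ := hp
    obtain ⟨d2, A2, h2, e2⟩ := hq
    refine ⟨d1 * d2, MvPolynomial.C (d2 : ℤ) * A1 + MvPolynomial.C (d1 : ℤ) * A2,
      Nat.mul_ne_zero h1 h2, ?_⟩
    rw [map_add, map_mul, map_mul, e1, e2, MvPolynomial.map_C, MvPolynomial.map_C, Nat.cast_mul,
      MvPolynomial.C_mul]
    simp only [eq_intCast, Int.cast_natCast]
    ring
  | mul_X p i hp =>
    obtain ⟨d1, A1, h1, e1⟩ := hp
    refine ⟨d1, A1 * MvPolynomial.X i, h1, ?_⟩
    rw [map_mul, e1, MvPolynomial.map_X, mul_assoc]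

private theorem ra_td {R : Type} [CommRing R] [IsDomain R] {c : R} (hc : c ≠ 0)
    (A : MvPolynomial (Fin 2) R) : (MvPolynomial.C c * A).totalDegree = A.totalDegree := by
  by_cases hA : A = 0
  · rw [hA, mul_zero]
  · rw [MvPolynomial.totalDegree_mul_of_isDomain (by simpa using hc) hA, MvPolynomial.totalDegree_C,
      zero_add]

private theorem ra_map (A : MP) :
    (MvPolynomial.map (Int.castRingHom ℚ) A).totalDegree = A.totalDegree := by
  unfold MvPolynomial.totalDegree
  rw [MvPolynomial.support_map_of_injective _ (RingHom.injective_int (Int.castRingHom ℚ))]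

private theorem ra_unit {A : MvPolynomial (Fin 2) ℚ} (h0 : A ≠ 0) (h : ¬ IsUnit A) :
    A.totalDegree ≠ 0 := by
  intro ht
  rw [MvPolynomial.totalDegree_eq_zero_iff_eq_C] at ht
  apply h
  rw [ht]
  refine IsUnit.map MvPolynomial.C ?_
  rw [isUnit_iff_ne_zero]
  intro hc
  rw [hc, map_zero] at ht
  exact h0 ht

private theorem ra_prime {m : ℕ} {q : ℕ} (hq : q.Prime) {F A B : MP} (hm : q ∣ m)
    (h : MvPolynomial.C (m : ℤ) * F = A * B) :
    (MvPolynomial.C (q : ℤ) ∣ A) ∨ (MvPolynomial.C (q : ℤ) ∣ B) := by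
  haveI : Fact q.Prime := ⟨hq⟩
  have h1 : MvPolynomial.map (Int.castRingHom (ZMod q)) A * MvPolynomial.map (Int.castRingHom (ZMod q)) B
      = 0 := by
    rw [← map_mul, ← h, map_mul, MvPolynomial.map_C]
    have : (Int.castRingHom (ZMod q)) (m : ℤ) = 0 := by
      simpa using (ZMod.natCast_eq_zero_iff m q).2 hm
    rw [this, map_zero, zero_mul]
  rcases mul_eq_zero.1 h1 with h2 | h2
  · exact Or.inl ((MvPolynomial.C_dvd_iff_zmod q A).2 h2)
  · exact Or.inr ((MvPolynomial.C_dvd_iff_zmod q B).2 h2)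

private theorem ra_step {m : ℕ} {q : ℕ} (hq : q.Prime) (hm0 : m ≠ 0) {F A B : MP}
    (h : MvPolynomial.C (m : ℤ) * F = A * B) (hA : A.totalDegree ≠ 0)
    (hm : q ∣ m) (hd : MvPolynomial.C (q : ℤ) ∣ A) :
    ∃ A' : MP, MvPolynomial.C ((m / q : ℕ) : ℤ) * F = A' * B ∧ A'.totalDegree ≠ 0 := by
  obtain ⟨A', rfl⟩ := hd
  have hq0 : (q : ℤ) ≠ 0 := by exact_mod_cast hq.ne_zero
  refine ⟨A', ?_, ?_⟩
  · have hC : (MvPolynomial.C (q : ℤ) : MP) ≠ 0 := by simpa using hq.ne_zero
    apply mul_left_cancel₀ hC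
    rw [← mul_assoc, ← mul_assoc, ← h, ← MvPolynomial.C_mul, ← Nat.cast_mul, Nat.mul_div_cancel' hm]
  · rwa [ra_td hq0] at hA

theorem red_factor {F : MP} (h0 : F.totalDegree ≠ 0) (hr : ¬ IrrQ F) :
    ∃ A B : MP, F = A * B ∧ A.totalDegree ≠ 0 ∧ B.totalDegree ≠ 0 := by
  classical
  have hF0 : F ≠ 0 := by
    rintro rfl
    simp at h0
  set F' := MvPolynomial.map (Int.castRingHom ℚ) F with hF'
  have hF'0 : F' ≠ 0 := by
    intro h
    exact hF0 (MvPolynomial.map_injective _ (RingHom.injective_int (Int.castRingHom ℚ))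
      (by rw [← hF', h, map_zero]))
  have hnu : ¬ IsUnit F' := by
    intro hu
    rw [MvPolynomial.isUnit_iff_totalDegree_of_isReduced] at hu
    have := hu.2
    rw [hF', ra_map] at this
    exact h0 this
  have hex : ∃ A0 B0 : MvPolynomial (Fin 2) ℚ, F' = A0 * B0 ∧ ¬ IsUnit A0 ∧ ¬ IsUnit B0 := by
    by_contra hcon
    push Not at hcon
    apply hr
    unfold IrrQ
    rw [irreducible_iff]
    refine ⟨hnu, fun a b hab => ?_⟩
    by_contra h2
    push Not at h2
    exact h2.2 (hcon a b hab h2.1)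
  obtain ⟨A0, B0, hAB, hA, hB⟩ := hex
  have hA0 : A0 ≠ 0 := by
    rintro rfl
    exact hF'0 (by rw [hAB, zero_mul])
  have hB0 : B0 ≠ 0 := by
    rintro rfl
    exact hF'0 (by rw [hAB, mul_zero])
  obtain ⟨d1, A1, hd1, e1⟩ := ra_clear A0
  obtain ⟨d2, B1, hd2, e2⟩ := ra_clear B0
  have hdeg1 : A1.totalDegree ≠ 0 := by
    rw [← ra_map, e1, ra_td (by exact_mod_cast hd1)]
    exact ra_unit hA0 hA
  have hdeg2 : B1.totalDegree ≠ 0 := by
    rw [← ra_map, e2, ra_td (by exact_mod_cast hd2)]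
    exact ra_unit hB0 hB
  have hP : ∃ m : ℕ, m ≠ 0 ∧ ∃ A B : MP, MvPolynomial.C (m : ℤ) * F = A * B ∧
      A.totalDegree ≠ 0 ∧ B.totalDegree ≠ 0 := by
    refine ⟨d1 * d2, Nat.mul_ne_zero hd1 hd2, A1, B1, ?_, hdeg1, hdeg2⟩
    apply MvPolynomial.map_injective _ (RingHom.injective_int (Int.castRingHom ℚ))
    rw [map_mul, map_mul, e1, e2, ← hF', hAB, MvPolynomial.map_C]
    rw [Nat.cast_mul, map_mul, map_mul]
    simp only [eq_intCast, Int.cast_natCast]
    ring
  obtain ⟨hm0, A, B, hAB', hAd, hBd⟩ := Nat.find_spec hP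
  set m := Nat.find hP with hm
  by_cases hm1 : m = 1
  · refine ⟨A, B, ?_, hAd, hBd⟩
    rw [← hAB', hm1]
    simp
  exfalso
  obtain ⟨q, hq, hqm⟩ := Nat.exists_prime_and_dvd hm1
  have hmq0 : m / q ≠ 0 := by
    have := Nat.div_pos (Nat.le_of_dvd (Nat.pos_of_ne_zero hm0) hqm) hq.pos
    omega
  have hmq : m / q < m := Nat.div_lt_self (Nat.pos_of_ne_zero hm0) hq.one_lt
  rcases ra_prime hq hqm hAB' with hd | hd
  · obtain ⟨A', h1, h2⟩ := ra_step hq hm0 hAB' hAd hqm hd
    exact Nat.find_min hP hmq ⟨hmq0, A', B, h1, h2, hBd⟩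
  · obtain ⟨B', h1, h2⟩ := ra_step hq hm0 (by rw [hAB', mul_comm]) hBd hqm hd
    exact Nat.find_min hP hmq ⟨hmq0, A, B', by rw [h1, mul_comm], hAd, h2⟩

end Pool.Agent.H47.SP
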