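import Pool.Agent.H47.SP.Defs

/-!
# Module CZ: leading form `c x^n`

PROOF. Let `A` be the set of the `m : Mon n` with `¬ ((m.1 : ℕ) = n ∧ 1 ≤ (m.2 : ℕ))`. The coefficients of `F` at the other `m` vanish (`ld_coeff`, `coeff_eq_zero_of_natDegree_lt` with `natDegree = 0`). `unique_bound H A (S.image (vec n))` (H72/ES/Dens), `card_image_of_injOn (vec_inj_on S hS)`: `S.card ≤ (2 H + 1) ^ A.card`. The complement of `A` has `n` elements (`⟨Fin.last n, j⟩`, `j ≠ 0`; compare `card_top` in H72/ES/DensB), so `A.card = NN n - n` (`card_mon`).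
-/

set_option autoImplicit false

namespace Pool.Agent.H47.SP

open Finset Polynomial Pool.Agent.H72.ES

private theorem card_bound {n r : ℕ} (A : Finset (Mon n)) (f : Fin r → Mon n) (hf : Function.Injective f)
    (hA : ∀ j, f j ∉ A) : A.card ≤ NN n - r := by
  classical
  have h1 : Disjoint A (univ.image f) := by
    rw [disjoint_left]
    intro m hm hm'
    obtain ⟨j, -, rfl⟩ := mem_image.1 hm'
    exact hA j hm
  have h2 : A.card + r ≤ NN n := by
    rw [← card_mon n]
    calc A.card + r = A.card + (univ.image f).card := by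
          rw [card_image_of_injective _ hf, card_univ, Fintype.card_fin]
      _ = (A ∪ univ.image f).card := (card_union_of_disjoint h1).symm
      _ ≤ Fintype.card (Mon n) := card_le_univ _
  omega

theorem cz {n H : ℕ} (S : Finset MP) (hS : ∀ F ∈ S, InBox n H F)
    (h0 : ∀ F ∈ S, (ld n F).natDegree = 0) : S.card ≤ (2 * H + 1) ^ (NN n - n) := by
  classical
  have h1 : (S.image (vec n)).card = S.card := card_image_of_injOn (vec_inj_on S hS)
  rw [← h1]
  refine (unique_bound H (univ.filter fun m : Mon n => ¬ ((m.1 : ℕ) = n ∧ 1 ≤ (m.2 : ℕ))) (S.image (vec n)) ?_ ?_).trans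
    (Nat.pow_le_pow_right (by omega) (card_bound _ (fun j : Fin n => (⟨Fin.last n, j.succ⟩ : Mon n)) ?_ ?_))
  · intro F hF m
    obtain ⟨G, hG, rfl⟩ := mem_image.1 hF
    exact vec_bd (hS G hG) m
  · intro F hF F' hF' h
    obtain ⟨G, hG, rfl⟩ := mem_image.1 hF
    obtain ⟨G', hG', rfl⟩ := mem_image.1 hF'
    have hz : ∀ G ∈ S, ∀ m : Mon n, (m.1 : ℕ) = n → 1 ≤ (m.2 : ℕ) → vec n G m = 0 := by
      intro G hG m hm1 hm2
      have hm3 : (m.2 : ℕ) ≤ n := by
        have h4 := m.2.2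
        omega
      show arrM G ((m.1 : ℕ) - (m.2 : ℕ)) (m.2 : ℕ) = 0
      have e1 : (m.1 : ℕ) - (m.2 : ℕ) = n - (m.2 : ℕ) := by omega
      rw [e1, ← ld_coeff G _ hm3]
      apply coeff_eq_zero_of_natDegree_lt
      rw [h0 G hG]
      omega
    funext m
    by_cases hm : (m.1 : ℕ) = n ∧ 1 ≤ (m.2 : ℕ)
    · rw [hz G hG m hm.1 hm.2, hz G' hG' m hm.1 hm.2]
    · exact h m (mem_filter.2 ⟨mem_univ _, hm⟩)
  · intro i j h
    have h2 : (i.succ : Fin (n + 1)) = j.succ := by simpa using h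
    exact Fin.succ_injective _ h2
  · intro j hj
    refine (mem_filter.1 hj).2 ⟨rfl, ?_⟩
    show 1 ≤ ((j.succ : Fin (n + 1)) : ℕ)
    rw [Fin.val_succ]
    omega

end Pool.Agent.H47.SP
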