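import Pool.Agent.H47.SP.CLS
import Pool.Agent.H47.SP.RNC
import Pool.Agent.H47.SP.CZ
import Pool.Agent.H47.SP.CF
import Pool.Agent.H47.SP.CM
import Pool.Agent.H47.SP.CPC
import Pool.Agent.H47.SP.CR

/-!
# Module FIN: a polynomial bound outside an exceptional set of codimension `⌊(3n-1)/4⌋`

The exceptional `F` of the box are reducible over `ℚ` (`cr`), or have a leading form `c x^n` (`cz`), a proper power (`cp`), an irreducible leading form with a real flex at infinity (`cf`), or are at most `39 n^3` for given terms of degree `≥ n - 3` (`cm`); the remaining ones satisfy Runge's bound (`run_split`).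
-/

set_option autoImplicit false

namespace Pool.Agent.H47.SP

open Finset Polynomial Pool.Agent.H72.ES

theorem nn_ge (n : ℕ) (hn : 5 ≤ n) : 4 * n - 2 ≤ NN n - (3 * n - 1) / 4 ∧
    (3 * n - 1) / 4 ≤ n - 1 ∧ n + 1 ≤ NN n := by
  have h1 : NN n = (n * n + 3 * n + 2) / 2 := by
    unfold NN
    congr 1
    ring
  have h2 : 5 * n ≤ n * n := Nat.mul_le_mul_right n hn
  obtain ⟨q, hq⟩ : ∃ q, q = n * n := ⟨_, rfl⟩
  rw [h1, ← hq]
  rw [← hq] at h2
  rcases Nat.lt_or_ge n 7 with h | h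
  · have : n = 5 ∨ n = 6 := by omega
    rcases this with h' | h' <;> · subst h'; omega
  · have h3 : 7 * n ≤ q := by
      rw [hq]
      exact Nat.mul_le_mul_right n h
    omega

theorem sparse (n : ℕ) (hn : 5 ≤ n) : ∃ E C0 : ℕ, ∀ H : ℕ, 1 ≤ H → ∀ S : Finset MP,
    (∀ F ∈ S, InBox n H F ∧ Big H E F) →
    S.card ≤ C0 * (2 * H + 1) ^ (NN n - (3 * n - 1) / 4) := by
  classical
  obtain ⟨K, hK⟩ := run_split n
  obtain ⟨C1, hC1⟩ := cr (n := n) (by omega)
  obtain ⟨C2, hC2⟩ := cp (n := n) (by omega)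
  obtain ⟨g1, g2, g3⟩ := nn_ge n hn
  set E := max K (5300000 * n ^ 5) with hE
  refine ⟨E, 3 ^ NN n + (C1 + (1 + (C2 + (1 + 39 * n ^ 3)))), fun H hH S hS => ?_⟩
  set D := (2 * H + 1) ^ (NN n - (3 * n - 1) / 4) with hD
  have hD1 : 1 ≤ D := Nat.one_le_pow _ _ (by omega)
  rcases Nat.lt_or_ge H 2 with hH2 | hH2
  · have h1 : H = 1 := by omega
    have h2 := box_count n H S fun F hF => (hS F hF).1
    rw [h1] at h2
    have h3 : (2 * 1 + 1) ^ NN n = 3 ^ NN n := rfl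
    rw [h3] at h2
    nlinarith [Nat.zero_le ((C1 + (1 + (C2 + (1 + 39 * n ^ 3)))) * D)]
  have hpw : ∀ e, e ≤ NN n - (3 * n - 1) / 4 → (2 * H + 1) ^ e ≤ D := fun e he =>
    Nat.pow_le_pow_right (by omega) he
  -- the classes
  set S1 := S.filter fun F => ¬ IrrQ F with hS1
  set R1 := S.filter fun F => ¬ ¬ IrrQ F with hR1
  set S2 := R1.filter fun F => (ld n F).natDegree = 0 with hS2
  set R2 := R1.filter fun F => ¬ (ld n F).natDegree = 0 with hR2
  set S3 := R2.filter fun F => (ld n F).natDegree = n ∧ Pow (ld n F) with hS3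
  set R3 := R2.filter fun F => ¬ ((ld n F).natDegree = n ∧ Pow (ld n F)) with hR3
  set S4 := R3.filter fun F => ∃ θ : ℝ, aeval θ (ld n F) = 0 ∧
    aeval θ (flexP n (arrM F)) = 0 with hS4
  set S5 := R3.filter fun F => ¬ ∃ θ : ℝ, aeval θ (ld n F) = 0 ∧
    aeval θ (flexP n (arrM F)) = 0 with hS5
  have e1 : S1.card + R1.card = S.card := card_filter_add_card_filter_not _
  have e2 : S2.card + R2.card = R1.card := card_filter_add_card_filter_not _
  have e3 : S3.card + R3.card = R2.card := card_filter_add_card_filter_not _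
  have e4 : S4.card + S5.card = R3.card := card_filter_add_card_filter_not _
  have m1 : ∀ F ∈ R1, F ∈ S ∧ IrrQ F := fun F hF =>
    ⟨(mem_filter.1 hF).1, not_not.1 (mem_filter.1 hF).2⟩
  have m2 : ∀ F ∈ R2, F ∈ R1 ∧ (ld n F).natDegree ≠ 0 := fun F hF => mem_filter.1 hF
  have m3 : ∀ F ∈ R3, F ∈ R2 ∧ ¬ ((ld n F).natDegree = n ∧ Pow (ld n F)) := fun F hF =>
    mem_filter.1 hF
  -- the members of the last class are irreducible
  have m4 : ∀ F ∈ R3, InBox n H F ∧ Big H E F ∧ (ld n F).natDegree = n ∧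
      Irreducible ((ld n F).map (Int.castRingHom ℚ)) := by
    intro F hF
    obtain ⟨h1, h2⟩ := m3 F hF
    obtain ⟨h3, h4⟩ := m2 F h1
    obtain ⟨h5, h6⟩ := m1 F h3
    obtain ⟨h7, h8⟩ := hS F h5
    refine ⟨h7, h8, ?_⟩
    rcases cls (by omega : 1 ≤ n) (ld n F) (ld_deg F) with h | h | ⟨h, h' | h'⟩
    · exact absurd h h4
    · exfalso
      obtain ⟨x, y, hxy, h0⟩ := h8
      have h9 := hK H F hH2 h7 h6 h x y h0
      have h10 : (H : ℤ) ^ K ≤ (H : ℤ) ^ E :=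
        pow_le_pow_right₀ (by exact_mod_cast hH) (le_max_left _ _)
      exact absurd (hxy.trans_le (h9.trans h10)) (lt_irrefl _)
    · exact ⟨h, h'⟩
    · exact absurd ⟨h, h'⟩ h2
  have b1 : S1.card ≤ C1 * D := by
    have g4 : NN n - n ≤ NN n - (3 * n - 1) / 4 := by omega
    refine (hC1 H hH S1 ?_).trans (Nat.mul_le_mul_left _ (hpw _ g4))
    intro F hF
    obtain ⟨h1, h2⟩ := mem_filter.1 hF
    exact ⟨(hS F h1).1, h2⟩
  have b2 : S2.card ≤ D := by
    have g4 : NN n - n ≤ NN n - (3 * n - 1) / 4 := by omega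
    refine (cz S2 (H := H) ?_ ?_).trans (hpw _ g4)
    · intro F hF
      exact (hS F (m1 F (mem_filter.1 hF).1).1).1
    · intro F hF
      exact (mem_filter.1 hF).2
  have b3 : S3.card ≤ C2 * D := by
    refine hC2 H hH S3 ?_
    intro F hF
    obtain ⟨h1, h2⟩ := mem_filter.1 hF
    exact ⟨(hS F (m1 F (m2 F h1).1).1).1, h2⟩
  have b4 : S4.card ≤ D := by
    have g4 : NN n - (n - 1) ≤ NN n - (3 * n - 1) / 4 := by omega
    refine (cf (by omega : 4 ≤ n) S4 (H := H) ?_ ?_).trans (hpw _ g4)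
    · intro F hF
      exact (m4 F (mem_filter.1 hF).1).1
    · intro F hF
      obtain ⟨h1, h2⟩ := mem_filter.1 hF
      exact ⟨(m4 F h1).2.2.1, (m4 F h1).2.2.2, h2⟩
  have b5 : S5.card ≤ 39 * n ^ 3 * D := by
    refine (cm (by omega : 4 ≤ n) hH2 S5 ?_ ?_).trans (Nat.mul_le_mul_left _ (hpw _ g1))
    · intro F hF
      obtain ⟨h1, h2⟩ := mem_filter.1 hF
      obtain ⟨h3, ⟨x, y, hxy, h0⟩, -⟩ := m4 F h1
      refine ⟨h3, x, y, lt_of_le_of_lt ?_ hxy, h0⟩
      exact pow_le_pow_right₀ (by exact_mod_cast hH) (le_max_right _ _)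
    · intro F hF
      obtain ⟨h1, h2⟩ := mem_filter.1 hF
      refine ⟨(m4 F h1).2.2.1, (m4 F h1).2.2.2, ?_⟩
      intro θ hθ hz
      exact h2 ⟨θ, hθ, hz⟩
  have h8 : S.card ≤ C1 * D + (D + (C2 * D + (D + 39 * n ^ 3 * D))) := by
    rw [← e1, ← e2, ← e3, ← e4]
    exact Nat.add_le_add b1 (Nat.add_le_add b2 (Nat.add_le_add b3 (Nat.add_le_add b4 b5)))
  refine h8.trans ?_
  have h9 : C1 * D + (D + (C2 * D + (D + 39 * n ^ 3 * D))) =
      (C1 + (1 + (C2 + (1 + 39 * n ^ 3)))) * D := by ring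
  rw [h9]
  exact Nat.mul_le_mul_right _ (Nat.le_add_left _ _)

/-- the form used in SharpCount -/
theorem sparse_ncard (n : ℕ) (hn : 5 ≤ n) : ∃ (E : ℕ) (C : ℝ), 0 ≤ C ∧ ∀ H : ℕ, 1 ≤ H →
    (({F : MvPolynomial (Fin 2) ℤ | F.totalDegree ≤ n ∧ (∀ m, |F.coeff m| ≤ (H : ℤ)) ∧
        ∃ P : ℤ × ℤ, (H : ℤ) ^ E < max |P.1| |P.2| ∧
          MvPolynomial.eval ![P.1, P.2] F = 0}.ncard : ℕ) : ℝ) ≤
      C * (2 * H + 1 : ℝ) ^ ((n + 1) * (n + 2) / 2 - (3 * n - 1) / 4) := by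
  classical
  obtain ⟨E, C0, h⟩ := sparse n hn
  refine ⟨E, C0, Nat.cast_nonneg _, fun H hH => ?_⟩
  set s : Set (MvPolynomial (Fin 2) ℤ) := {F | F.totalDegree ≤ n ∧ (∀ m, |F.coeff m| ≤ (H : ℤ)) ∧
        ∃ P : ℤ × ℤ, (H : ℤ) ^ E < max |P.1| |P.2| ∧
          MvPolynomial.eval ![P.1, P.2] F = 0} with hs
  by_cases hfin : s.Finite
  · have h1 := h H hH hfin.toFinset ?_
    · rw [Set.ncard_eq_toFinset_card s hfin]
      have h2 : ((hfin.toFinset.card : ℕ) : ℝ) ≤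
          ((C0 * (2 * H + 1) ^ (NN n - (3 * n - 1) / 4) : ℕ) : ℝ) := by exact_mod_cast h1
      refine h2.trans (le_of_eq ?_)
      push_cast
      rfl
    · intro F hF
      obtain ⟨h1, h2, P, h3, h4⟩ := hfin.mem_toFinset.1 hF
      exact ⟨⟨h1, h2⟩, P.1, P.2, h3, h4⟩
  · rw [Set.Infinite.ncard hfin]
    push_cast
    positivity

end Pool.Agent.H47.SP
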