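import Pool.Agent.H47.SP.Defs

/-!
# Module RNA: products of forms

`fm ℚ k c = ∑ j ≤ k, c j x^(k-j) y^j` (H15/SC/Rrun). PROOF. Two polynomials over the infinite field `ℚ` with the same values are equal (`MvPolynomial.funext`, as in `runge_of`, H15/SC/Rrun). Values: `fm_evalQ`: `eval ![u, v] (fm ℚ k A.coeff) = ∑ j ≤ k, A.coeff j * u^(k-j) * v^j`. So the claim is `∑_(m ≤ k+l) (A*B).coeff m u^(k+l-m) v^m = (∑_(i ≤ k) A.coeff i u^(k-i) v^i) (∑_(j ≤ l) B.coeff j u^(l-j) v^j)`.
Expand the product as a double sum, group by `m = i + j` (`coeff_mul`, `Finset.sum_sigma'`/`Nat.antidiagonal`; the terms with `i > k` or `j > l` vanish by the degree hypotheses, `coeff_eq_zero_of_natDegree_lt`). Alternative: Mathlib has `Polynomial.homogenize` and `homogenize_mul` (Algebra/Polynomial/Homogenize.lean), `fm ℚ k A.coeff` is `homogenize A k` with the two variables exchanged.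
-/

set_option autoImplicit false

namespace Pool.Agent.H47.SP

open Finset Polynomial Pool.Agent.H15.SC

private theorem fm_val {k : ℕ} {A : ℚ[X]} (hA : A.natDegree ≤ k) {u v : ℚ} (hu : u ≠ 0) :
    MvPolynomial.eval ![u, v] (fm ℚ k A.coeff) = u ^ k * A.eval (v / u) := by
  rw [fm_evalQ, eval_eq_sum_range' (Nat.lt_succ_of_le hA), mul_sum]
  refine sum_congr rfl fun j hj => ?_
  have hj' : j ≤ k := Nat.lt_succ_iff.1 (mem_range.1 hj)
  have h1 : u ^ k = u ^ (k - j) * u ^ j := by rw [← pow_add, Nat.sub_add_cancel hj']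
  have h2 : u ^ j ≠ 0 := pow_ne_zero _ hu
  rw [div_pow, h1]
  field_simp

theorem fm_mul {k l : ℕ} {A B : ℚ[X]} (hA : A.natDegree ≤ k) (hB : B.natDegree ≤ l) :
    fm ℚ (k + l) (A * B).coeff = fm ℚ k A.coeff * fm ℚ l B.coeff := by
  have h0 : (MvPolynomial.X 0 : MvPolynomial (Fin 2) ℚ) ≠ 0 := MvPolynomial.X_ne_zero 0
  apply mul_left_cancel₀ h0
  apply MvPolynomial.funext
  intro w
  have hw : w = ![w 0, w 1] := by
    funext i
    fin_cases i <;> rfl
  rw [hw, map_mul, map_mul, MvPolynomial.eval_X]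
  show w 0 * _ = w 0 * _
  by_cases hu : w 0 = 0
  · rw [hu, zero_mul, zero_mul]
  · rw [map_mul, fm_val hA hu, fm_val hB hu, fm_val (natDegree_mul_le.trans (add_le_add hA hB)) hu, eval_mul, pow_add]
    ring

end Pool.Agent.H47.SP
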